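import Pool.Agent.K3h69.OS.Vel

/-!
# The one-sided criterion, with the energy
-/

open MeasureTheory Set Filter
open scoped ENNReal NNReal Topology

namespace Pool.Agent.K3h69.OS

open Pool.Agent.H708R2.EulerSign Pool.Agent.H708R2.EulerTypeI Pool.Agent.W786.Sv
  Pool.Agent.W786.Dir Pool.Agent.W786.Max

variable {T : ℝ} {u : ℝ → V → V} {p : ℝ → V → ℝ}

lemma int_kappa {κ s b : ℝ} (hsb : s ≤ b) (hb : b < T) :
    IntervalIntegrable (fun r => κ / (T - r)) volume s b ∧
    ∫ r in s..b, κ / (T - r) = κ * (Real.log (T - s) - Real.log (T - b)) := by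
  have hne : ∀ r ∈ Icc s b, T - r ≠ 0 := fun r hr => by
    have := hr.2.trans_lt hb
    exact (sub_pos.2 this).ne'
  have hc : ContinuousOn (fun r => κ / (T - r)) (uIcc s b) := by
    rw [uIcc_of_le hsb]
    exact continuousOn_const.div (continuousOn_const.sub continuousOn_id) hne
  refine ⟨hc.intervalIntegrable, ?_⟩
  have h1 : ∀ r ∈ uIcc s b, HasDerivAt (fun r => -(κ * Real.log (T - r))) (κ / (T - r)) r := by
    intro r hr
    rw [uIcc_of_le hsb] at hr
    have h2 : HasDerivAt (fun r => T - r) (-1) r := by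
      simpa using (hasDerivAt_id r).const_sub T
    have h3 := ((h2.log (hne r hr)).const_mul κ).neg
    refine h3.congr_deriv ?_
    ring
  rw [intervalIntegral.integral_eq_sub_of_hasDerivAt h1 hc.intervalIntegrable]
  ring

/-- The bound of the vorticity under the one-sided condition at one maximum point. -/
theorem energy_bound (h : IsC2Solution T u p) {κ : ℝ} (hκ : 0 ≤ κ) {G β : ℝ → ℝ} {Λ K : ℝ}
    (hG : ∀ t ∈ Ioo 0 T, 1 ≤ G t) (hGi : IntegrableOn (fun t => G t ^ (5 / 2 : ℝ)) (Ioo 0 T))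
    (hβi : IntegrableOn β (Ioo 0 T))
    (hyp : ∀ᵐ t, t ∈ Ioo 0 T → ∃ x, IsMaxPt u t x ∧
      (Λ < nrm (vort (u t) x) → ∃ B, 3 * B ≤ κ / (T - t) + β t ∧
        OneSidedTwist (u t) x (G t) 0 B))
    (hK : 0 ≤ K) (hKΛ : Λ ≤ K) (hK0 : ∀ x, nrm (vort (u 0) x) ≤ K) :
    ∀ t ∈ Ioo 0 T, ∀ x, nrm (vort (u t) x) ≤ K * (T / (T - t)) ^ κ
      * Real.exp (∫ s in Ioo 0 t, (|β s| + CE * Real.sqrt (∫ x in Dom, sq3 (u 0 x))
          * |G s ^ (5 / 2 : ℝ)|)) := by
  intro b hb x
  have hT : 0 < T := hb.1.trans hb.2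
  have hC := CE_pos
  set E := Real.sqrt (∫ x in Dom, sq3 (u 0 x)) with hE
  have hE0 : 0 ≤ E := Real.sqrt_nonneg _
  set f : ℝ → ℝ := fun s => |β s| + CE * E * |G s ^ (5 / 2 : ℝ)| with hf
  have hf0 : ∀ s, 0 ≤ f s := fun s => by
    have := abs_nonneg (β s)
    positivity
  have hfi : IntegrableOn f (Icc 0 b) := by
    rw [integrableOn_Icc_iff_integrableOn_Ioo]
    have h1 : IntegrableOn f (Ioo 0 T) := hβi.abs.add (hGi.abs.const_mul (CE * E))
    exact h1.mono_set (Ioo_subset_Ioo_right hb.2.le)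
  have hii : ∀ s ∈ Icc 0 b, IntervalIntegrable f volume 0 s := fun s hs =>
    (intervalIntegrable_iff_integrableOn_Icc_of_le hs.1).2
      (hfi.mono_set (Icc_subset_Icc_right hs.2))
  set H : ℝ → ℝ := fun t => ∫ s in (0 : ℝ)..t, f s with hH
  have hconv : ∫ s in Ioo 0 b, f s = H b := by
    simp only [hH]
    rw [intervalIntegral.integral_of_le hb.1.le, integral_Ioc_eq_integral_Ioo]
  rw [hconv]
  have hTpos : ∀ t ∈ Icc 0 b, 0 < T - t := fun t ht => sub_pos.2 (ht.2.trans_lt hb.2)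
  refine comp_max h le_rfl hb.1.le hb.2 (ρ := fun t => κ / (T - t) + f t)
    (G := fun t => K * (T / (T - t)) ^ κ * Real.exp (H t)) ?_ ?_ ?_ ?_ ?_ ?_ x
  · have h1 : ContinuousOn H (Icc 0 b) := by
      have := intervalIntegral.continuousOn_primitive_interval (f := f) (a := 0) (b := b)
        (by rwa [uIcc_of_le hb.1.le])
      rwa [uIcc_of_le hb.1.le] at this
    have h2 : ContinuousOn (fun t => (T / (T - t)) ^ κ) (Icc 0 b) := by
      refine ContinuousOn.rpow_const ?_ fun t _ => Or.inr hκ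
      exact continuousOn_const.div (continuousOn_const.sub continuousOn_id)
        fun t ht => (hTpos t ht).ne'
    exact (continuousOn_const.mul h2).mul (Real.continuous_exp.comp_continuousOn h1)
  · exact ((intervalIntegrable_iff_integrableOn_Icc_of_le hb.1.le).1
      (int_kappa (κ := κ) hb.1.le hb.2).1).add hfi
  · intro t ht
    have h1 := hTpos t ht
    have h2 := hf0 t
    positivity
  · intro s hs
    have hs0 := hTpos s hs
    have hb0 := hTpos b ⟨hb.1.le, le_rfl⟩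
    have hfs : IntervalIntegrable f volume s b :=
      (hii s hs).symm.trans (hii b ⟨hb.1.le, le_rfl⟩)
    have h1 : H s + ∫ r in s..b, f r = H b :=
      intervalIntegral.integral_add_adjacent_intervals (hii s hs) hfs
    obtain ⟨h2, h3⟩ := int_kappa (κ := κ) hs.2 hb.2
    have h4 : ∫ r in s..b, (κ / (T - r) + f r) = κ * (Real.log (T - s) - Real.log (T - b))
        + ∫ r in s..b, f r := by
      rw [intervalIntegral.integral_add h2 hfs, h3]
    rw [h4, Real.exp_add]
    have h5 : Real.exp (κ * (Real.log (T - s) - Real.log (T - b))) = ((T - s) / (T - b)) ^ κ := by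
      rw [Real.rpow_def_of_pos (by positivity), Real.log_div hs0.ne' hb0.ne', mul_comm]
    rw [h5]
    have h6 : (T / (T - s)) ^ κ * ((T - s) / (T - b)) ^ κ = (T / (T - b)) ^ κ := by
      rw [← Real.mul_rpow (by positivity) (by positivity)]
      congr 1
      field_simp
    refine le_of_eq ?_
    calc K * (T / (T - s)) ^ κ * Real.exp (H s)
          * (((T - s) / (T - b)) ^ κ * Real.exp (∫ r in s..b, f r))
        = K * ((T / (T - s)) ^ κ * ((T - s) / (T - b)) ^ κ)
          * (Real.exp (H s) * Real.exp (∫ r in s..b, f r)) := by ring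
      _ = K * (T / (T - b)) ^ κ * Real.exp (H b) := by rw [h6, ← Real.exp_add, h1]
  · intro y
    simp only [hH, intervalIntegral.integral_same, Real.exp_zero, mul_one, sub_zero]
    rw [div_self hT.ne', Real.one_rpow, mul_one]
    exact hK0 y
  · filter_upwards [hyp] with t ht htI
    have htT : t ∈ Ioo 0 T := ⟨htI.1, htI.2.trans hb.2⟩
    have htI' : t ∈ Ico 0 T := ⟨htI.1.le, htT.2⟩
    obtain ⟨y, hy, hy2⟩ := ht htT
    refine ⟨y, hy, fun hlt => ?_⟩
    have h0 := hTpos t ⟨htI.1.le, htI.2.le⟩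
    have h1 : 1 ≤ (T / (T - t)) ^ κ := by
      refine Real.one_le_rpow ?_ hκ
      rw [le_div_iff₀ h0]
      linarith [htI.1]
    have h2 : 0 ≤ H t := intervalIntegral.integral_nonneg htI.1.le fun s _ => hf0 s
    have h3 : 1 ≤ Real.exp (H t) := Real.one_le_exp h2
    have h4 : Λ < nrm (vort (u t) y) := lt_of_le_of_lt (by
      calc Λ ≤ K := hKΛ
        _ ≤ K * (T / (T - t)) ^ κ := le_mul_of_one_le_right hK h1
        _ ≤ K * (T / (T - t)) ^ κ * Real.exp (H t) :=
          le_mul_of_one_le_right (by positivity) h3) hlt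
    obtain ⟨B, hB, hc⟩ := hy2 h4
    have h5 := stretch_energy (slice_two h htT) (h.sol.periodic_u t htI')
      (fun x => h.sol.div_free t htI' x) (hG t htT) hc
    rw [energy_const h.sol htI', ← hE] at h5
    refine h5.trans ?_
    have h6 : 0 ≤ vort (u t) y ⬝ᵥ vort (u t) y := dot_self_nonneg _
    show _ ≤ (κ / (T - t) + f t) * (vort (u t) y ⬝ᵥ vort (u t) y)
    refine mul_le_mul_of_nonneg_right ?_ h6
    have h7 : CE * E * G t ^ (5 / 2 : ℝ) ≤ CE * E * |G t ^ (5 / 2 : ℝ)| :=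
      mul_le_mul_of_nonneg_left (le_abs_self _) (by positivity)
    have h8 := le_abs_self (β t)
    simp only [hf]
    linarith

/-- Finiteness of the Beale-Kato-Majda integral. -/
theorem energy_bkm (h : IsC2Solution T u p) {κ : ℝ} (hκ : 0 ≤ κ) (hκ1 : κ < 1) {G β : ℝ → ℝ}
    {Λ : ℝ}
    (hG : ∀ t ∈ Ioo 0 T, 1 ≤ G t) (hGi : IntegrableOn (fun t => G t ^ (5 / 2 : ℝ)) (Ioo 0 T))
    (hβi : IntegrableOn β (Ioo 0 T))
    (hyp : ∀ᵐ t, t ∈ Ioo 0 T → ∃ x, IsMaxPt u t x ∧
      (Λ < nrm (vort (u t) x) → ∃ B, 3 * B ≤ κ / (T - t) + β t ∧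
        OneSidedTwist (u t) x (G t) 0 B)) :
    BKMFinite T u := by
  unfold BKMFinite
  rcases le_or_gt T 0 with hT | hT
  · rw [Ioo_eq_empty (not_lt.2 hT)]
    simp
  obtain ⟨W, hW0, hW⟩ := vort_bound h.sol (b := 0) hT
  set K := max 0 (max Λ W) with hK
  have hK1 : 0 ≤ K := le_max_left _ _
  have hKΛ : Λ ≤ K := (le_max_left _ _).trans (le_max_right _ _)
  have hK0 : ∀ x, nrm (vort (u 0) x) ≤ K := fun x =>
    ((hW 0 ⟨le_rfl, le_rfl⟩ x).1).trans ((le_max_right _ _).trans (le_max_right _ _))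
  have hb := energy_bound h hκ hG hGi hβi hyp hK1 hKΛ hK0
  set E := Real.sqrt (∫ x in Dom, sq3 (u 0 x)) with hE
  have hE0 : 0 ≤ E := Real.sqrt_nonneg _
  have hC := CE_pos
  have hint1 : IntegrableOn (fun s => |β s| + CE * E * |G s ^ (5 / 2 : ℝ)|) (Ioo 0 T) :=
    hβi.abs.add (hGi.abs.const_mul (CE * E))
  set M := Real.exp (∫ s in Ioo 0 T, (|β s| + CE * E * |G s ^ (5 / 2 : ℝ)|)) with hM
  have hle : ∀ t ∈ Ioo 0 T, ∀ x, nrm (vort (u t) x) ≤ K * T ^ κ * M * (T - t) ^ (-κ) := by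
    intro t ht x
    have h0 : 0 < T - t := sub_pos.2 ht.2
    refine (hb t ht x).trans ?_
    have h1 : (T / (T - t)) ^ κ = T ^ κ * (T - t) ^ (-κ) := by
      rw [Real.div_rpow hT.le h0.le, Real.rpow_neg h0.le]
      rfl
    rw [h1]
    have h2 : Real.exp (∫ s in Ioo 0 t, (|β s| + CE * E * |G s ^ (5 / 2 : ℝ)|)) ≤ M := by
      refine Real.exp_le_exp.2 (setIntegral_mono_set hint1 ?_
        (Ioo_subset_Ioo_right ht.2.le).eventuallyLE)
      exact (ae_restrict_iff' measurableSet_Ioo).2 (Eventually.of_forall fun s _ => by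
        have := abs_nonneg (β s)
        show (0 : ℝ) ≤ |β s| + CE * E * |G s ^ (5 / 2 : ℝ)|
        positivity)
    calc K * (T ^ κ * (T - t) ^ (-κ))
          * Real.exp (∫ s in Ioo 0 t, (|β s| + CE * E * |G s ^ (5 / 2 : ℝ)|))
        ≤ K * (T ^ κ * (T - t) ^ (-κ)) * M := by gcongr
      _ = _ := by ring
  have h1 : ∫⁻ t in Ioo 0 T, ⨆ x, ENNReal.ofReal (nrm (vort (u t) x))
      ≤ ∫⁻ t in Ioo 0 T, ENNReal.ofReal (K * T ^ κ * M * (T - t) ^ (-κ)) := by
    refine setLIntegral_mono' measurableSet_Ioo fun t ht => ?_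
    exact iSup_le fun x => ENNReal.ofReal_le_ofReal (hle t ht x)
  refine h1.trans_lt ?_
  have h2 : IntervalIntegrable (fun x : ℝ => x ^ (-κ)) volume T 0 :=
    intervalIntegral.intervalIntegrable_rpow' (by linarith)
  have h3 : IntervalIntegrable (fun x : ℝ => (T - x) ^ (-κ)) volume 0 T := by
    have := h2.comp_sub_left T
    rwa [sub_self, sub_zero] at this
  have h4 : IntegrableOn (fun t => K * T ^ κ * M * (T - t) ^ (-κ)) (Ioo 0 T) := by
    have h5 := (intervalIntegrable_iff_integrableOn_Ioo_of_le hT.le).1 h3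
    exact h5.const_mul _
  exact h4.lintegral_lt_top

end Pool.Agent.K3h69.OS
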