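import Pool.Agent.K3h69.OS.Stat2

/-!
# The energy on small balls and the conservation of the energy
-/

open MeasureTheory Set Filter
open scoped ENNReal NNReal Topology

namespace Pool.Agent.K3h69.OS

open Pool.Agent.H708R2.EulerSign Pool.Agent.H708R2.EulerTypeI Pool.Agent.W786.Dir

lemma P_le_one {n : ℕ} {z : V} : P n z ≤ 1 := by
  unfold P
  refine pow_le_one₀ (le_max_right _ _) (max_le ?_ zero_le_one)
  have := dot_self_nonneg z
  linarith

/-- The energy on a small ball is at most the total energy. -/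
lemma local_energy {f : V → ℝ} (hf : Continuous f) (hp : Periodic3 f) (h0 : ∀ x, 0 ≤ f x) (x₀ : V)
    {r : ℝ} (hr : 0 < r) (hr1 : r ≤ 1) :
    ∫ z, P 2 z * f (x₀ + r • z) ≤ (r ^ 3)⁻¹ * ∫ x in Dom, f x := by
  set h : V → ℝ := fun y => P 2 (r⁻¹ • (y - x₀)) * f y with hh
  have hcont : Continuous h := ((P_cont 2).comp (by fun_prop)).mul hf
  have e1 : ∫ z, P 2 z * f (x₀ + r • z) = (r ^ 3)⁻¹ * ∫ y, h y := by
    have e2 : ∫ z, P 2 z * f (x₀ + r • z) = ∫ z, (fun y => h (y + x₀)) (r • z) := by
      refine integral_congr_ae (Eventually.of_forall fun z => ?_)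
      simp only [hh]
      rw [add_sub_cancel_right, smul_smul, inv_mul_cancel₀ hr.ne', one_smul, add_comm]
    rw [e2, Measure.integral_comp_smul volume (fun y => h (y + x₀)) r]
    rw [integral_add_right_eq_self h x₀]
    simp only [Module.finrank_fintype_fun_eq_card, Fintype.card_fin, smul_eq_mul]
    rw [abs_of_pos (by positivity)]
  rw [e1]
  have hr3 : 0 < (r ^ 3)⁻¹ := by positivity
  refine mul_le_mul_of_nonneg_left ?_ hr3.le
  -- the shifted cell
  set c : V := x₀ - fun _ => 1 with hc
  set F : V → V := fun y => y + c with hF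
  have hFb : Function.Bijective F := (Equiv.addRight c).bijective
  have hFc : Continuous F := continuous_id.add continuous_const
  have hFd : IsAddFundamentalDomain H708R2.EulerSign.Lat (F '' Dom) (volume : Measure V) := by
    refine image_fd hFb hFc fun g _ x => ?_
    simp only [hF]
    abel
  have hmeas : MeasurableSet (F '' Dom) := by
    have := (Homeomorph.addRight c).toMeasurableEquiv.measurableSet_image (s := Dom)
    exact this.2 dom_meas
  have hinv : ∀ (g : H708R2.EulerSign.Lat) (x : V), f (g +ᵥ x) = f x := by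
    intro g x
    have h2 : (g +ᵥ x : V) = x + g := by
      rw [add_comm]; rfl
    rw [h2]
    exact hp.lat g.2 x
  have e3 : ∫ x in Dom, f x = ∫ x in F '' Dom, f x := dom_fd.setIntegral_eq hFd hinv
  rw [e3]
  have hzero : ∀ y, y ∉ F '' Dom → h y = 0 := by
    intro y hy
    by_contra hne
    apply hy
    have h1 : P 2 (r⁻¹ • (y - x₀)) ≠ 0 := left_ne_zero_of_mul hne
    have h2 : (r⁻¹ • (y - x₀)) ⬝ᵥ (r⁻¹ • (y - x₀)) < 1 := by
      by_contra hge
      exact h1 (P_zero_of (not_lt.1 hge))
    have h3 := nrm_lt_one h2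
    rw [nrm_smul, abs_of_pos (by positivity), inv_mul_lt_iff₀ hr, mul_one] at h3
    have h4 : nrm (y - x₀) < 1 := lt_of_lt_of_le h3 hr1
    refine ⟨y - c, ?_, ?_⟩
    · rw [ZSpan.mem_fundamentalDomain]
      intro i
      have hrep : bas.repr (y - c) i = (y - c) i / (2 * Real.pi) := by
        have h5 : y - c = ∑ j, ((y - c) j / (2 * Real.pi)) • bas j := by
          simp only [bas_apply]
          ext k
          rw [Finset.sum_apply]
          simp only [Pi.smul_apply, Pi.single_apply, smul_eq_mul, mul_ite, mul_zero]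
          rw [Finset.sum_ite_eq Finset.univ k]
          simp only [Finset.mem_univ, if_true]
          field_simp
        conv_lhs => rw [h5]
        rw [Module.Basis.repr_sum_self]
      have h6 : |(y - x₀) i| < 1 := (abs_le_nrm _ i).trans_lt h4
      rw [abs_lt] at h6
      have h7 : (y - c) i = (y - x₀) i + 1 := by
        simp only [hc, Pi.sub_apply]
        ring
      rw [hrep, h7]
      have hpi := Real.pi_gt_three
      constructor
      · apply div_nonneg <;> linarith
      · rw [div_lt_one (by linarith)]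
        linarith
    · simp only [hF]
      abel
  have e4 : ∫ y, h y = ∫ y in F '' Dom, h y :=
    (setIntegral_eq_integral_of_forall_compl_eq_zero hzero).symm
  rw [e4]
  have hbdd : Bornology.IsBounded (F '' Dom) :=
    (isometry_add_right c).lipschitz.isBounded_image dom_bdd
  have hint : ∀ {g : V → ℝ}, Continuous g → IntegrableOn g (F '' Dom) := by
    intro g hg
    exact (hg.continuousOn.integrableOn_compact hbdd.isCompact_closure).mono_set subset_closure
  refine setIntegral_mono (hint hcont) (hint hf) fun y => ?_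
  exact mul_le_of_le_one_left (h0 y) P_le_one

/-- The energy of a classical solution is constant. -/
lemma energy_const {T : ℝ} {w : ℝ → V → V} {q : ℝ → V → ℝ}
    (hw : IsClassicalSolution (Ico 0 T) w q) {t : ℝ} (ht : t ∈ Ico 0 T) :
    ∫ x in Dom, sq3 (w t x) = ∫ x in Dom, sq3 (w 0 x) := by
  have hu : ContDiff ℝ 1 (fun z : ℝ × V => (fun (_ : ℝ) (_ : V) => (0 : V)) z.1 z.2) :=
    contDiff_const
  have hup : ∀ t, Periodic3 ((fun (_ : ℝ) (_ : V) => (0 : V)) t) := fun _ _ _ => rfl
  have hg : ∀ (x : V), grad (fun _ : V => (0 : V)) x = 0 := by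
    intro x
    ext i j
    simp [grad]
  have hudiv : ∀ (t : ℝ) x, divergence ((fun (_ : ℝ) (_ : V) => (0 : V)) t) x = 0 := by
    intro t x
    simp only [divergence]
    rw [hg]
    simp
  have hueq : ∀ (t : ℝ) (x : V) (i : Fin 3),
      deriv (fun s => (fun (_ : ℝ) (_ : V) => (0 : V)) s x i) t
        + ∑ j, (fun (_ : ℝ) (_ : V) => (0 : V)) t x j
          * fderiv ℝ ((fun (_ : ℝ) (_ : V) => (0 : V)) t) x (Pi.single j 1) i = 0 := by
    intro t x i
    simp
  have hK : ∀ s ∈ Ico 0 T, ∀ x i j,
      |grad ((fun (_ : ℝ) (_ : V) => (0 : V)) s) x i j| ≤ 0 := by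
    intro s _ x i j
    simp only
    rw [hg]
    simp
  have hcont := en_continuousOn (u := fun _ _ => 0) hw hu
  have hd : ∀ s ∈ Ioo 0 T, HasDerivAt (en w fun _ _ => 0) 0 s := by
    intro s hs
    have h1 := en_hasDerivAt (u := fun _ _ => 0) hw hu hs
    have h2 := en_deriv_le (u := fun _ _ => 0) hw hu hup hudiv hueq hK hs
    rw [mul_zero, zero_mul] at h2
    have h3 : ∫ x in Dom, dS w (fun _ _ => 0) s x = 0 := abs_eq_zero.1 (le_antisymm h2 (abs_nonneg _))
    rw [h3] at h1
    exact h1
  have h0T : 0 < T := ht.1.trans_lt ht.2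
  rcases ht.1.eq_or_lt with h0 | h0
  · rw [← h0]
  have e : en w (fun _ _ => 0) t = en w (fun _ _ => 0) 0 := by
    have hsub : Icc 0 t ⊆ Ico 0 T := fun s hs => ⟨hs.1, hs.2.trans_lt ht.2⟩
    have hi : ∀ s ∈ interior (Icc 0 t), HasDerivAt (en w fun _ _ => 0) 0 s := by
      intro s hs
      rw [interior_Icc] at hs
      exact hd s ⟨hs.1, hs.2.trans ht.2⟩
    have m1 : MonotoneOn (en w fun _ _ => 0) (Icc 0 t) :=
      monotoneOn_of_deriv_nonneg (convex_Icc 0 t) (hcont.mono hsub)
        (fun s hs => (hi s hs).differentiableAt.differentiableWithinAt)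
        fun s hs => (hi s hs).deriv.ge
    have m2 : AntitoneOn (en w fun _ _ => 0) (Icc 0 t) :=
      antitoneOn_of_deriv_nonpos (convex_Icc 0 t) (hcont.mono hsub)
        (fun s hs => (hi s hs).differentiableAt.differentiableWithinAt)
        fun s hs => (hi s hs).deriv.le
    have ha : (0 : ℝ) ∈ Icc 0 t := ⟨le_rfl, h0.le⟩
    have hb : t ∈ Icc 0 t := ⟨h0.le, le_rfl⟩
    exact le_antisymm (m2 ha hb h0.le) (m1 ha hb h0.le)
  simpa [en] using e

end Pool.Agent.K3h69.OS
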