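import Pool.Agent.K3h69.OS.Energy

/-!
# Radial integrals
-/

open MeasureTheory Set Filter
open scoped ENNReal NNReal Topology

namespace Pool.Agent.K3h69.OS

open Pool.Agent.H708R2.EulerSign Pool.Agent.H708R2.EulerTypeI Pool.Agent.W786.Dir

lemma poly_int : ∫ y in (0 : ℝ)..1, y ^ 2 * (1 - y ^ 2) ^ 3 = 16 / 315 := by
  have h : ∀ y : ℝ, HasDerivAt (fun y : ℝ => y ^ 3 / 3 - 3 * (y ^ 5 / 5) + 3 * (y ^ 7 / 7) - y ^ 9 / 9)
      (y ^ 2 * (1 - y ^ 2) ^ 3) y := by
    intro y
    have h3 := (hasDerivAt_pow 3 y).div_const 3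
    have h5 := ((hasDerivAt_pow 5 y).div_const 5).const_mul 3
    have h7 := ((hasDerivAt_pow 7 y).div_const 7).const_mul 3
    have h9 := (hasDerivAt_pow 9 y).div_const 9
    refine (((h3.sub h5).add h7).sub h9).congr_deriv ?_
    norm_num
    ring
  rw [intervalIntegral.integral_eq_sub_of_hasDerivAt (fun y _ => h y)]
  · norm_num
  · exact (Continuous.intervalIntegrable (by fun_prop) _ _)

lemma I3_eq : ∫ z, P 3 z = 64 * Real.pi / 315 := by
  set f : ℝ → ℝ := fun s => (max (1 - s ^ 2) 0) ^ 3 with hf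
  have h1 : ∫ z : V, P 3 z = ∫ x : EuclideanSpace ℝ (Fin 3), f ‖x‖ := by
    rw [← (PiLp.volume_preserving_ofLp (Fin 3)).integral_comp
      (MeasurableEquiv.toLp 2 (Fin 3 → ℝ)).symm.measurableEmbedding]
    refine integral_congr_ae (Eventually.of_forall fun x => ?_)
    simp only [P, hf]
    rw [EuclideanSpace.norm_sq_eq]
    simp only [Real.norm_eq_abs, sq_abs]
    simp only [dotProduct, sq]
  rw [h1, integral_fun_norm_addHaar volume f]
  have h2 : (volume : Measure (EuclideanSpace ℝ (Fin 3))).real (Metric.ball 0 1)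
      = 4 * Real.pi / 3 := by
    rw [Measure.real, EuclideanSpace.volume_ball_fin_three]
    simp only [one_pow, ENNReal.ofReal_one, one_mul]
    rw [ENNReal.toReal_ofReal (by positivity)]
    ring
  have h3 : ∫ y in Ioi (0 : ℝ), y ^ (Module.finrank ℝ (EuclideanSpace ℝ (Fin 3)) - 1) • f y
      = 16 / 315 := by
    rw [finrank_euclideanSpace, Fintype.card_fin]
    have h4 : ∫ y in Ioi (0 : ℝ), y ^ (3 - 1) • f y = ∫ y in Ioc (0 : ℝ) 1, y ^ 2 * (1 - y ^ 2) ^ 3 := by
      refine (setIntegral_eq_of_subset_of_forall_sdiff_eq_zero measurableSet_Ioi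
        (Ioc_subset_Ioi_self : Ioc (0 : ℝ) 1 ⊆ Ioi 0) ?_).trans ?_
      · intro y hy
        have hy1 : 1 < y := by
          by_contra h
          exact hy.2 ⟨hy.1, not_lt.1 h⟩
        simp only [hf, smul_eq_mul]
        rw [max_eq_right (by nlinarith)]
        simp
      · refine setIntegral_congr_fun measurableSet_Ioc fun y hy => ?_
        simp only [hf, smul_eq_mul]
        rw [max_eq_left]
        nlinarith [hy.1, hy.2]
    rw [h4, ← intervalIntegral.integral_of_le zero_le_one, poly_int]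
  rw [h2, h3, finrank_euclideanSpace, Fintype.card_fin]
  simp only [smul_eq_mul, nsmul_eq_mul]
  push_cast
  ring

/-- The radial weight. -/
noncomputable def kr (a r : ℝ) : ℝ := 6 * r⁻¹ * (a / r) ^ 5 * (max (1 - (a / r) ^ 2) 0) ^ 2

lemma kr_int {a ρ : ℝ} (ha : 0 ≤ a) :
    ∫⁻ r in Ioo 0 ρ, ENNReal.ofReal (kr a r) ≤ ENNReal.ofReal (16 / 105) := by
  rcases ha.eq_or_lt with h0 | h0
  · rw [← h0]
    simp [kr]
  have hz : ∀ r ∈ Ioc 0 a, kr a r = 0 := by
    intro r hr
    have h1 : 1 ≤ a / r := by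
      rw [le_div_iff₀ hr.1]
      linarith [hr.2]
    have h2 : max (1 - (a / r) ^ 2) 0 = 0 := max_eq_right (by nlinarith)
    unfold kr
    rw [h2]
    simp
  have h1 : ∫⁻ r in Ioo 0 ρ, ENNReal.ofReal (kr a r) ≤ ∫⁻ r in Ioc a ρ, ENNReal.ofReal (kr a r) := by
    rw [← lintegral_indicator measurableSet_Ioo, ← lintegral_indicator measurableSet_Ioc]
    refine lintegral_mono fun r => ?_
    by_cases hr : r ∈ Ioo 0 ρ
    · rcases le_or_gt r a with hra | hra
      · rw [indicator_of_mem hr, hz r ⟨hr.1, hra⟩]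
        simp
      · rw [indicator_of_mem hr, indicator_of_mem (show r ∈ Ioc a ρ from ⟨hra, hr.2.le⟩)]
    · rw [indicator_of_notMem hr]
      exact zero_le
  refine h1.trans ?_
  rcases le_or_gt ρ a with hρ | hρ
  · rw [Ioc_eq_empty (not_lt.2 hρ)]
    simp
  set F : ℝ → ℝ := fun r => 6 * (-(a ^ 5 / 5 * (r ^ 5)⁻¹) + 2 * (a ^ 7 / 7 * (r ^ 7)⁻¹)
    - a ^ 9 / 9 * (r ^ 9)⁻¹) with hF
  have hkr : ∀ r, a ≤ r → kr a r = 6 * (a ^ 5 / r ^ 6) * (1 - (a / r) ^ 2) ^ 2 := by
    intro r hr
    have hr0 : 0 < r := h0.trans_le hr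
    have h2 : a / r ≤ 1 := by rw [div_le_one hr0]; exact hr
    have h3 : 0 ≤ a / r := by positivity
    unfold kr
    rw [max_eq_left (by nlinarith)]
    field_simp
  have hd : ∀ r ∈ uIcc a ρ, HasDerivAt F (kr a r) r := by
    intro r hr
    rw [uIcc_of_le hρ.le] at hr
    have hr0 : 0 < r := h0.trans_le hr.1
    have e5 := ((hasDerivAt_pow 5 r).inv (by positivity)).const_mul (a ^ 5 / 5)
    have e7 := (((hasDerivAt_pow 7 r).inv (by positivity)).const_mul (a ^ 7 / 7)).const_mul 2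
    have e9 := ((hasDerivAt_pow 9 r).inv (by positivity)).const_mul (a ^ 9 / 9)
    refine (((e5.neg.add e7).sub e9).const_mul 6).congr_deriv ?_
    rw [hkr r hr.1]
    push_cast
    field_simp
    ring
  have hc : ContinuousOn (kr a) (uIcc a ρ) := by
    rw [uIcc_of_le hρ.le]
    have h2 : ContinuousOn (fun r => 6 * (a ^ 5 / r ^ 6) * (1 - (a / r) ^ 2) ^ 2) (Icc a ρ) := by
      have hne : ∀ r ∈ Icc a ρ, r ≠ 0 := fun r hr => (h0.trans_le hr.1).ne'
      refine (continuousOn_const.mul (continuousOn_const.div (continuousOn_id.pow 6)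
        fun r hr => pow_ne_zero 6 (hne r hr))).mul ?_
      exact (continuousOn_const.sub ((continuousOn_const.div continuousOn_id hne).pow 2)).pow 2
    exact h2.congr fun r hr => hkr r hr.1
  have hnn : ∀ r ∈ Ioc a ρ, 0 ≤ kr a r := by
    intro r hr
    have : 0 < r := h0.trans hr.1
    rw [hkr r hr.1.le]
    positivity
  have hint : IntegrableOn (kr a) (Ioc a ρ) := by
    have := hc.intervalIntegrable (μ := volume)
    rwa [intervalIntegrable_iff_integrableOn_Ioc_of_le hρ.le] at this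
  rw [← ofReal_integral_eq_lintegral_ofReal hint
    ((ae_restrict_iff' measurableSet_Ioc).2 (Eventually.of_forall hnn))]
  refine ENNReal.ofReal_le_ofReal ?_
  rw [← intervalIntegral.integral_of_le hρ.le,
    intervalIntegral.integral_eq_sub_of_hasDerivAt hd hc.intervalIntegrable]
  have hρ0 : 0 < ρ := h0.trans hρ
  set x := a / ρ with hx
  have hx0 : 0 < x := by positivity
  have hx1 : x < 1 := by rw [hx, div_lt_one hρ0]; exact hρ
  have e1 : F ρ = -(6 * x ^ 5 * (1 / 5 - 2 / 7 * x ^ 2 + 1 / 9 * x ^ 4)) := by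
    simp only [hF, hx]
    field_simp
    ring
  have e2 : F a = -(16 / 105) := by
    simp only [hF]
    field_simp
    norm_num
  have e3 : 0 ≤ 1 / 5 - 2 / 7 * x ^ 2 + 1 / 9 * x ^ 4 := by
    have : x ^ 2 < 1 := by nlinarith
    nlinarith
  rw [e1, e2]
  have : 0 ≤ 6 * x ^ 5 * (1 / 5 - 2 / 7 * x ^ 2 + 1 / 9 * x ^ 4) := by positivity
  linarith

/-- The average of `Q` with the kernel of the derivative. -/
noncomputable def Ph (Q : V → ℝ≥0∞) (r : ℝ) : ℝ≥0∞ :=
  ∫⁻ z, ENNReal.ofReal (6 * r ^ 2 * (P 2 z * nrm z ^ 5)) * Q (r • z)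

lemma P2_scaled {r : ℝ} (hr : 0 < r) (y : V) :
    P 2 (r⁻¹ • y) = (max (1 - (nrm y / r) ^ 2) 0) ^ 2 := by
  unfold P
  congr 2
  rw [smul_dotProduct, dotProduct_smul, ← nrm_sq, smul_eq_mul, smul_eq_mul]
  field_simp

lemma Ph_meas {Q : V → ℝ≥0∞} (hQ : Measurable Q) : Measurable (Ph Q) := by
  unfold Ph
  refine Measurable.lintegral_prod_right' (f := fun q : ℝ × V =>
    ENNReal.ofReal (6 * q.1 ^ 2 * (P 2 q.2 * nrm q.2 ^ 5)) * Q (q.1 • q.2)) ?_
  have h1 : Measurable fun q : ℝ × V => 6 * q.1 ^ 2 * (P 2 q.2 * nrm q.2 ^ 5) := by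
    have h2 : Continuous fun q : ℝ × V => 6 * q.1 ^ 2 * (P 2 q.2 * nrm q.2 ^ 5) := by
      have h3 := (P_cont 2).comp (continuous_snd (X := ℝ) (Y := V))
      have h4 := nrm_cont.comp (continuous_snd (X := ℝ) (Y := V))
      exact (continuous_const.mul (continuous_fst.pow 2)).mul (h3.mul (h4.pow 5))
    exact h2.measurable
  have h5 : Measurable fun q : ℝ × V => q.1 • q.2 := (continuous_fst.smul continuous_snd).measurable
  exact h1.ennreal_ofReal.mul (hQ.comp h5)

/-- Tonelli. -/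
lemma Ph_int {Q : V → ℝ≥0∞} (hQ : Measurable Q) (ρ : ℝ) :
    ∫⁻ r in Ioo 0 ρ, Ph Q r ≤ ENNReal.ofReal (16 / 105) * ∫⁻ y in {y : V | nrm y < ρ}, Q y := by
  have hS : MeasurableSet {y : V | nrm y < ρ} := (isOpen_lt nrm_cont continuous_const).measurableSet
  have h1 : ∀ r ∈ Ioo 0 ρ, Ph Q r
      = ∫⁻ y in {y : V | nrm y < ρ}, ENNReal.ofReal (kr (nrm y) r) * Q y := by
    intro r hr
    have hr0 := hr.1
    set g : V → ℝ≥0∞ := fun y =>
      ENNReal.ofReal (6 * r ^ 2 * (P 2 (r⁻¹ • y) * nrm (r⁻¹ • y) ^ 5)) * Q y with hg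
    have hgm : Measurable g := by
      have h2 : Continuous fun y : V => 6 * r ^ 2 * (P 2 (r⁻¹ • y) * nrm (r⁻¹ • y) ^ 5) := by
        have h3 : Continuous fun y : V => r⁻¹ • y := continuous_const_smul _
        exact continuous_const.mul (((P_cont 2).comp h3).mul ((nrm_cont.comp h3).pow 5))
      exact h2.measurable.ennreal_ofReal.mul hQ
    have h2 : Ph Q r = ∫⁻ z, g (r • z) := by
      unfold Ph
      refine lintegral_congr fun z => ?_
      simp only [hg]
      rw [smul_smul, inv_mul_cancel₀ hr0.ne', one_smul]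
    have h3 : ∫⁻ z, g (r • z) = ENNReal.ofReal ((r ^ 3)⁻¹) * ∫⁻ y, g y := by
      have h4 := Measure.map_addHaar_smul (volume : Measure V) hr0.ne'
      rw [← lintegral_map hgm (measurable_const_smul r), h4, lintegral_smul_measure]
      simp only [Module.finrank_fintype_fun_eq_card, Fintype.card_fin, smul_eq_mul]
      rw [abs_of_pos (by positivity)]
    rw [h2, h3, ← lintegral_const_mul _ hgm, ← lintegral_indicator hS]
    refine lintegral_congr fun y => ?_
    simp only [hg]
    rw [P2_scaled hr0, nrm_smul, abs_of_pos (inv_pos.2 hr0)]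
    by_cases hy : nrm y < ρ
    · rw [indicator_of_mem (show y ∈ {y : V | nrm y < ρ} from hy), ← mul_assoc,
        ← ENNReal.ofReal_mul (by positivity)]
      congr 2
      unfold kr
      field_simp
    · rw [indicator_of_notMem (show y ∉ {y : V | nrm y < ρ} from hy)]
      have h5 : 1 ≤ nrm y / r := by
        rw [le_div_iff₀ hr0]
        linarith [hr.2, not_lt.1 hy]
      have h6 : max (1 - (nrm y / r) ^ 2) 0 = 0 := max_eq_right (by nlinarith)
      rw [h6]
      simp
  rw [setLIntegral_congr_fun measurableSet_Ioo h1]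
  rw [lintegral_lintegral_swap]
  · rw [← lintegral_const_mul' _ _ ENNReal.ofReal_ne_top]
    refine lintegral_mono fun y => ?_
    have hk : Measurable fun r : ℝ => ENNReal.ofReal (kr (nrm y) r) := by
      unfold kr
      fun_prop
    rw [lintegral_mul_const _ hk]
    gcongr
    exact kr_int (nrm_nonneg y)
  · refine Measurable.aemeasurable ?_
    have h2 : Measurable fun q : ℝ × V => kr (nrm q.2) q.1 := by
      unfold kr
      have h3 : Measurable fun q : ℝ × V => nrm q.2 := nrm_cont.measurable.comp measurable_snd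
      have h4 : Measurable fun q : ℝ × V => nrm q.2 / q.1 := h3.div measurable_fst
      exact ((measurable_fst.inv.const_mul 6).mul (h4.pow_const 5)).mul
        (((measurable_const.sub (h4.pow_const 2)).max measurable_const).pow_const 2)
    exact h2.ennreal_ofReal.mul (hQ.comp measurable_snd)

end Pool.Agent.K3h69.OS
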