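import Pool.Agent.W786.Max4

/-!
# The stretching rate under a one-sided condition on the twist of the vorticity
-/

open MeasureTheory Set Filter
open scoped ENNReal NNReal Topology

namespace Pool.Agent.K3h69.OS

open Pool.Agent.H708R2.EulerSign Pool.Agent.H708R2.EulerTypeI Pool.Agent.W786.Dir

/-- `m` is nonnegative and nondecreasing on `(0, 1)` and its Dini integral `∫₀¹ m(s) / s ds` is
at most `B`. -/
def Dini (m : ℝ → ℝ) (B : ℝ) : Prop :=
  MonotoneOn m (Ioo 0 1) ∧ (∀ s ∈ Ioo (0 : ℝ) 1, 0 ≤ m s) ∧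
  IntegrableOn (fun s => m s / s) (Ioo 0 1) ∧ ∫ s in Ioo (0 : ℝ) 1, m s / s ≤ B

/-- The one-sided condition. -/
def OneSidedTwist (v : V → V) (x : V) (G θ B : ℝ) : Prop :=
  ∃ m : ℝ → ℝ, Dini m B ∧ ∀ y : V, nrm y < 1 / G →
    (y ⬝ᵥ vort v x) * (vort v (x + y) ⬝ᵥ cross (vort v x) y) ≤
      nrm y ^ 2 * (m (G * nrm y) * nrm (vort v x) ^ 2
        + θ * (G * nrm y) * (nrm (vort v x) * (vort v (x + y) ⬝ᵥ vort v x)))

/-! ## Kernels -/

lemma cproj (k : Fin 3) : ContDiff ℝ 1 (fun z : V => z k) :=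
  (ContinuousLinearMap.proj (R := ℝ) (φ := fun _ : Fin 3 => ℝ) k).contDiff

lemma fproj (k : Fin 3) (z w : V) : fderiv ℝ (fun z : V => z k) z w = w k := by
  have : HasFDerivAt (fun z : V => z k) (ContinuousLinearMap.proj k : V →L[ℝ] ℝ) z :=
    (ContinuousLinearMap.proj k : V →L[ℝ] ℝ).hasFDerivAt
  rw [this.fderiv]
  rfl

/-- `∫ P₂ |z|² = (1/2) ∫ P₃`. -/
lemma int_P2 : ∫ z, P 2 z * (z ⬝ᵥ z) = (1 / 2) * ∫ z, P 3 z := by
  have h : ∀ k : Fin 3, ∫ z, P 3 z = ∫ z, 6 * (P 2 z * (z k * z k)) := by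
    intro k
    have h1 := ibp (P_contDiff 1) (P_supp 2) (cproj k) (Pi.single k 1)
    have e1 : (fun z : V => P (1 + 2) z * fderiv ℝ (fun z : V => z k) z (Pi.single k 1))
        = fun z => P 3 z := by
      funext z
      rw [fproj]
      simp
    have e2 : (fun z : V => fderiv ℝ (P (1 + 2)) z (Pi.single k 1) * z k)
        = fun z => -(6 * (P 2 z * (z k * z k))) := by
      funext z
      rw [P_fderiv]
      simp
      ring
    rw [e1, e2, integral_neg, neg_neg] at h1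
    exact h1
  have i0 : ∀ k : Fin 3, Integrable fun z : V => 6 * (P 2 z * (z k * z k)) := by
    intro k
    have hc : Continuous fun z : V => P 2 z * (z k * z k) := (P_cont 2).mul (by fun_prop)
    exact (hc.integrable_of_hasCompactSupport (P_supp 1).mul_right).const_mul 6
  have h3 : 3 * ∫ z, P 3 z = 6 * ∫ z, P 2 z * (z ⬝ᵥ z) := by
    have s : (∫ z, P 3 z) + (∫ z, P 3 z) + ∫ z, P 3 z
        = (∫ z, 6 * (P 2 z * (z 0 * z 0))) + (∫ z, 6 * (P 2 z * (z 1 * z 1)))
          + ∫ z, 6 * (P 2 z * (z 2 * z 2)) := by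
      rw [← h 0, ← h 1, ← h 2]
    have i01 : Integrable fun z : V => 6 * (P 2 z * (z 0 * z 0)) + 6 * (P 2 z * (z 1 * z 1)) :=
      (i0 0).add (i0 1)
    rw [← integral_add (i0 0) (i0 1), ← integral_add i01 (i0 2)] at s
    have e0 : 6 * ∫ z, P 2 z * (z ⬝ᵥ z) = ∫ z, 6 * (P 2 z * (z ⬝ᵥ z)) :=
      (integral_const_mul _ _).symm
    have e : (fun z : V => 6 * (P 2 z * (z ⬝ᵥ z))) = fun z => 6 * (P 2 z * (z 0 * z 0))
        + 6 * (P 2 z * (z 1 * z 1)) + 6 * (P 2 z * (z 2 * z 2)) := by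
      funext z
      simp only [dotProduct, Fin.sum_univ_three]
      ring
    rw [e0, e, ← s]
    ring
  linarith

/-- The kernel `P₂(z) |z|³`. -/
noncomputable def K3 (z : V) : ℝ := P 2 z * nrm z ^ 3

lemma nrm_rpow (z : V) : nrm z ^ 3 = (z ⬝ᵥ z) ^ (3 / 2 : ℝ) := by
  unfold nrm
  rw [Real.sqrt_eq_rpow, ← Real.rpow_natCast, ← Real.rpow_mul (dot_self_nonneg z)]
  norm_num

lemma nrm3_hasFDerivAt (z : V) :
    HasFDerivAt (fun z : V => nrm z ^ 3) ((3 * nrm z) • dotL z) z := by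
  have h1 := dotSelf_hasFDerivAt z
  have h2 : HasDerivAt (fun s : ℝ => s ^ (3 / 2 : ℝ)) ((3 / 2 : ℝ) * (z ⬝ᵥ z) ^ ((3 / 2 : ℝ) - 1))
      (z ⬝ᵥ z) := Real.hasDerivAt_rpow_const (Or.inr (by norm_num))
  have h3 := HasDerivAt.comp_hasFDerivAt (f := fun z : V => z ⬝ᵥ z) z h2 h1
  have e : (fun z : V => nrm z ^ 3) = (fun s : ℝ => s ^ (3 / 2 : ℝ)) ∘ fun z : V => z ⬝ᵥ z := by
    funext z
    exact nrm_rpow z
  rw [e]
  refine h3.congr_fderiv ?_
  have e2 : (z ⬝ᵥ z) ^ ((3 / 2 : ℝ) - 1) = nrm z := by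
    unfold nrm
    rw [Real.sqrt_eq_rpow]
    norm_num
  rw [e2]
  ext w
  simp
  ring

lemma nrm3_contDiff : ContDiff ℝ 1 (fun z : V => nrm z ^ 3) := by
  rw [contDiff_one_iff_hasFDerivAt]
  refine ⟨fun z => (3 * nrm z) • dotL z, ?_, nrm3_hasFDerivAt⟩
  refine (continuous_const.mul nrm_cont).smul ?_
  unfold dotL
  fun_prop

lemma K3_contDiff : ContDiff ℝ 1 K3 := (P_contDiff 0).mul nrm3_contDiff

lemma K3_supp : HasCompactSupport K3 := (P_supp 1).mul_right

lemma K3_zero {z : V} (h : 1 ≤ z ⬝ᵥ z) : K3 z = 0 := by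
  unfold K3
  rw [show P 2 z = 0 from P_zero_of h, zero_mul]

lemma K3_nonneg (z : V) : 0 ≤ K3 z := mul_nonneg (P_nonneg 2 z) (pow_nonneg (nrm_nonneg z) 3)

lemma K3_le (z : V) : K3 z ≤ P 2 z := by
  rcases lt_or_ge (z ⬝ᵥ z) 1 with hz | hz
  · have h1 := (nrm_lt_one hz).le
    exact mul_le_of_le_one_right (P_nonneg 2 z) (pow_le_one₀ (nrm_nonneg z) h1)
  · rw [K3_zero hz]
    exact P_nonneg 2 z

lemma K3_fderiv (z : V) (j : Fin 3) : |fderiv ℝ K3 z (Pi.single j 1)| ≤ 7 * P 1 z := by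
  have h1 : HasFDerivAt K3 (P 2 z • ((3 * nrm z) • dotL z)
      + nrm z ^ 3 • ((-2 * (((0 : ℕ) : ℝ) + 2) * P (0 + 1) z) • dotL z)) z :=
    (P_hasFDerivAt 0 z).mul (nrm3_hasFDerivAt z)
  rw [h1.fderiv]
  simp only [add_apply, FunLike.coe_smul, Pi.smul_apply, smul_eq_mul, dotL_apply]
  have hp1 := P_nonneg 1 z
  have hp2 := P_nonneg 2 z
  have hp21 : P 2 z ≤ P 1 z := P_le z
  rcases lt_or_ge (z ⬝ᵥ z) 1 with hz | hz
  · have hn := (nrm_lt_one hz).le
    have hn0 := nrm_nonneg z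
    have b3 : |z ⬝ᵥ Pi.single j 1| ≤ 1 := by
      refine (dot_le _ _).trans ?_
      rw [nrm_single, mul_one]
      exact hn
    have hn3 : nrm z ^ 3 ≤ 1 := pow_le_one₀ hn0 hn
    have t1 : |P 2 z * (3 * nrm z * (z ⬝ᵥ Pi.single j 1))| ≤ 3 * P 1 z := by
      rw [abs_mul, abs_mul, abs_of_nonneg hp2, abs_of_nonneg (by positivity : 0 ≤ 3 * nrm z)]
      calc P 2 z * (3 * nrm z * |z ⬝ᵥ Pi.single j 1|) ≤ P 1 z * (3 * 1 * 1) := by gcongr
        _ = 3 * P 1 z := by ring
    have t2 : |nrm z ^ 3 * (-2 * (((0 : ℕ) : ℝ) + 2) * P (0 + 1) z * (z ⬝ᵥ Pi.single j 1))|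
        ≤ 4 * P 1 z := by
      have e : |-2 * (((0 : ℕ) : ℝ) + 2) * P (0 + 1) z| = 4 * P 1 z := by
        rw [abs_mul, abs_of_nonneg (P_nonneg _ z)]
        norm_num
      rw [abs_mul, abs_mul, e, abs_of_nonneg (by positivity : 0 ≤ nrm z ^ 3)]
      calc nrm z ^ 3 * (4 * P 1 z * |z ⬝ᵥ Pi.single j 1|) ≤ 1 * (4 * P 1 z * 1) := by gcongr
        _ = 4 * P 1 z := by ring
    refine (abs_add_le _ _).trans ?_
    linarith
  · have e1 : P (0 + 1) z = 0 := P_zero_of hz
    have e2 : P 2 z = 0 := P_zero_of hz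
    rw [e1, e2]
    simp only [zero_mul, mul_zero, add_zero, abs_zero]
    positivity

/-! ## The averages -/

section

variable {v : V → V} {x₀ e : V}

/-- The average of the stretching rate at the scale `r`. -/
noncomputable def Av (v : V → V) (x₀ e : V) (r : ℝ) : ℝ := ∫ z, P 3 z * rate v e (x₀ + r • z)

/-- Its derivative. -/
noncomputable def Av' (v : V → V) (x₀ e : V) (r : ℝ) : ℝ :=
  ∫ z, P 3 z * fderiv ℝ (rate v e) (x₀ + r • z) z

/-- The average of the component of the vorticity in the direction `e`. -/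
noncomputable def Jv (v : V → V) (x₀ e : V) (r : ℝ) : ℝ :=
  ∫ z, K3 z * (vort v (x₀ + r • z) ⬝ᵥ e)

lemma Av_deriv (hv : ContDiff ℝ 2 v) (r : ℝ) : HasDerivAt (Av v x₀ e) (Av' v x₀ e r) r :=
  param_deriv (P_cont 3) (P_supp 2) (rate_contDiff hv e) x₀ r

lemma Av_zero : Av v x₀ e 0 = (∫ z, P 3 z) * rate v e x₀ := by
  simp only [Av, zero_smul, add_zero]
  rw [integral_mul_const]

lemma cross_smul_smul (n r : ℝ) (a b : V) : cross (n • a) (r • b) = (n * r) • cross a b := by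
  unfold cross
  ext i
  fin_cases i <;> simp <;> ring

lemma cross_anti (a b : V) : cross a b = -cross b a := by
  unfold cross
  ext i
  fin_cases i <;> simp <;> ring

/-- The one-sided bound of the derivative of the averages. -/
lemma neg_dA (hv : ContDiff ℝ 2 v) (hdiv : ∀ x, divergence v x = 0) {G θ n : ℝ} {m : ℝ → ℝ}
    (hG : 0 < G) (hn : 0 < n) (he : e ⬝ᵥ e = 1) (hω : vort v x₀ = n • e)
    (hm : MonotoneOn m (Ioo 0 1))
    (hc : ∀ y : V, nrm y < 1 / G →
      (y ⬝ᵥ vort v x₀) * (vort v (x₀ + y) ⬝ᵥ cross (vort v x₀) y) ≤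
      nrm y ^ 2 * (m (G * nrm y) * nrm (vort v x₀) ^ 2
        + θ * (G * nrm y) * (nrm (vort v x₀) * (vort v (x₀ + y) ⬝ᵥ vort v x₀))))
    {r : ℝ} (hr : r ∈ Ioo 0 (1 / G)) :
    -Av' v x₀ e r ≤ 3 * (∫ z, P 3 z) * (m (G * r) / r) + 6 * (θ * G) * Jv v x₀ e r := by
  have hr0 := hr.1
  have hrG : G * r < 1 := by
    have := hr.2
    rwa [lt_div_iff₀ hG, mul_comm] at this
  have hnrm : nrm (vort v x₀) = n := by
    rw [hω, nrm_smul, abs_of_pos hn]
    unfold nrm
    rw [he, Real.sqrt_one, mul_one]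
  have h1 := rate_formula hv hdiv e x₀ r
  have hJi : Integrable fun z => K3 z * (vort v (x₀ + r • z) ⬝ᵥ e) := by
    have hc1 : Continuous fun z => vort v (x₀ + r • z) ⬝ᵥ e := by
      have h2 : Continuous fun z => vort v (x₀ + r • z) := (vort_cont hv).comp (by fun_prop)
      simp only [dotProduct]
      exact continuous_finsetSum _ fun i _ => ((continuous_apply i).comp h2).mul continuous_const
    exact (K3_contDiff.continuous.mul hc1).integrable_of_hasCompactSupport K3_supp.mul_right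
  have hPi : Integrable fun z : V => P 2 z * (z ⬝ᵥ z) := by
    have hc1 : Continuous fun z : V => z ⬝ᵥ z := by
      simp only [dotProduct]
      fun_prop
    exact ((P_cont 2).mul hc1).integrable_of_hasCompactSupport (P_supp 1).mul_right
  have hLi : Integrable fun z => (z ⬝ᵥ e) * P 2 z * (vort v (x₀ + r • z) ⬝ᵥ cross z e) := by
    have hc1 : Continuous fun z : V => z ⬝ᵥ e := by
      simp only [dotProduct]
      fun_prop
    have hc2 : Continuous fun z : V => vort v (x₀ + r • z) ⬝ᵥ cross z e := by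
      have h2 : Continuous fun z => vort v (x₀ + r • z) := (vort_cont hv).comp (by fun_prop)
      have h3 : Continuous fun z : V => cross z e := by
        unfold cross
        refine continuous_pi fun i => ?_
        fin_cases i <;> simp <;> fun_prop
      simp only [dotProduct]
      exact continuous_finsetSum _ fun i _ =>
        ((continuous_apply i).comp h2).mul ((continuous_apply i).comp h3)
    exact ((hc1.mul (P_cont 2)).mul hc2).integrable_of_hasCompactSupport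
      ((P_supp 1).mul_left (f := fun z : V => z ⬝ᵥ e)).mul_right
  have key : -∫ z, (z ⬝ᵥ e) * P 2 z * (vort v (x₀ + r • z) ⬝ᵥ cross z e)
      ≤ m (G * r) * ((1 / 2) * ∫ z, P 3 z) + (θ * (G * r)) * Jv v x₀ e r := by
    rw [← int_P2, ← integral_neg]
    unfold Jv
    rw [← integral_const_mul, ← integral_const_mul, ← integral_add (hPi.const_mul _)
      (hJi.const_mul _)]
    refine integral_mono hLi.neg ((hPi.const_mul _).add (hJi.const_mul _)) fun z => ?_
    simp only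
    rcases lt_or_ge (z ⬝ᵥ z) 1 with hz | hz
    · have hz1 := nrm_lt_one hz
      have hz0 := nrm_nonneg z
      rcases hz0.eq_or_lt with hz00 | hzpos
      · have hz' : z = 0 := nrm_eq_zero hz00.symm
        subst hz'
        simp [K3, nrm]
      have hy : nrm (r • z) < 1 / G := by
        rw [nrm_smul, abs_of_pos hr0]
        exact lt_of_le_of_lt (mul_le_of_le_one_right hr0.le hz1.le) hr.2
      have h2 := hc (r • z) hy
      rw [hnrm, hω, cross_smul_smul, nrm_smul, abs_of_pos hr0] at h2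
      rw [smul_dotProduct, dotProduct_smul, dotProduct_smul, dotProduct_smul] at h2
      simp only [smul_eq_mul] at h2
      set w := vort v (x₀ + r • z) with hw
      have e1 : w ⬝ᵥ cross z e = -(w ⬝ᵥ cross e z) := by
        rw [cross_anti z e, dotProduct_neg]
      have hmle : m (G * (r * nrm z)) ≤ m (G * r) := by
        refine hm ⟨by positivity, ?_⟩ ⟨by positivity, hrG⟩ ?_
        · calc G * (r * nrm z) = G * r * nrm z := by ring
            _ ≤ G * r * 1 := by gcongr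
            _ < 1 := by linarith
        · calc G * (r * nrm z) = G * r * nrm z := by ring
            _ ≤ G * r * 1 := by gcongr
            _ = G * r := mul_one _
      have h3 : (z ⬝ᵥ e) * (w ⬝ᵥ cross e z) ≤ nrm z ^ 2 * (m (G * (r * nrm z))
          + θ * (G * (r * nrm z)) * (w ⬝ᵥ e)) := by
        have hpos : 0 < n ^ 2 * r ^ 2 := by positivity
        refine le_of_mul_le_mul_left ?_ hpos
        calc n ^ 2 * r ^ 2 * ((z ⬝ᵥ e) * (w ⬝ᵥ cross e z))
            = r * (n * (z ⬝ᵥ e)) * (n * r * (w ⬝ᵥ cross e z)) := by ring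
          _ ≤ _ := h2
          _ = _ := by ring
      have h4 : (z ⬝ᵥ e) * (w ⬝ᵥ cross e z) ≤ nrm z ^ 2 * (m (G * r)
          + θ * (G * (r * nrm z)) * (w ⬝ᵥ e)) := by
        refine h3.trans ?_
        gcongr
      have hP := P_nonneg 2 z
      have h5 := mul_le_mul_of_nonneg_left h4 hP
      rw [e1]
      have e2 : z ⬝ᵥ z = nrm z ^ 2 := (nrm_sq z).symm
      rw [e2]
      unfold K3
      calc -((z ⬝ᵥ e) * P 2 z * -(w ⬝ᵥ cross e z)) = P 2 z * ((z ⬝ᵥ e) * (w ⬝ᵥ cross e z)) := by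
            ring
        _ ≤ _ := h5
        _ = _ := by ring
    · have e2 : P 2 z = 0 := P_zero_of hz
      rw [e2, K3_zero hz]
      simp
  have h3 : r * -Av' v x₀ e r ≤ r * (3 * (∫ z, P 3 z) * (m (G * r) / r)
      + 6 * (θ * G) * Jv v x₀ e r) := by
    have e1 : r * -Av' v x₀ e r
        = 6 * -∫ z, (z ⬝ᵥ e) * P 2 z * (vort v (x₀ + r • z) ⬝ᵥ cross z e) := by
      unfold Av'
      linarith
    rw [e1]
    calc 6 * -∫ z, (z ⬝ᵥ e) * P 2 z * (vort v (x₀ + r • z) ⬝ᵥ cross z e)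
        ≤ 6 * (m (G * r) * ((1 / 2) * ∫ z, P 3 z) + (θ * (G * r)) * Jv v x₀ e r) := by linarith
      _ = _ := by
        field_simp
        ring
  exact le_of_mul_le_mul_left h3 hr0

end

end Pool.Agent.K3h69.OS
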