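import Pool.Agent.K3h69.OS.Stat

/-!
# The stretching rate under a one-sided condition on the twist: bounds of the averages
-/

open MeasureTheory Set Filter
open scoped ENNReal NNReal Topology

namespace Pool.Agent.K3h69.OS

open Pool.Agent.H708R2.EulerSign Pool.Agent.H708R2.EulerTypeI Pool.Agent.W786.Dir

variable {v : V → V} {x₀ e : V}

lemma nrm_unit (he : e ⬝ᵥ e = 1) : nrm e = 1 := by
  unfold nrm
  rw [he, Real.sqrt_one]

lemma scaled_mem {r ρ : ℝ} (hr : 0 < r) (hrρ : r ≤ ρ) {z : V} (hz : z ⬝ᵥ z < 1) :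
    nrm (x₀ + r • z - x₀) < ρ := by
  rw [add_sub_cancel_left, nrm_smul, abs_of_pos hr]
  exact lt_of_lt_of_le (mul_lt_of_lt_one_right hr (nrm_lt_one hz)) hrρ

lemma Jv_int (hv : ContDiff ℝ 2 v) (r : ℝ) :
    Integrable fun z => K3 z * (vort v (x₀ + r • z) ⬝ᵥ e) := by
  have hc1 : Continuous fun z => vort v (x₀ + r • z) ⬝ᵥ e := by
    have h2 : Continuous fun z => vort v (x₀ + r • z) := (vort_cont hv).comp (by fun_prop)
    simp only [dotProduct]
    exact continuous_finsetSum _ fun i _ => ((continuous_apply i).comp h2).mul continuous_const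
  exact (K3_contDiff.continuous.mul hc1).integrable_of_hasCompactSupport K3_supp.mul_right

/-- The bound of `J` by the maximum of the vorticity. -/
lemma Jv_near (he : e ⬝ᵥ e = 1) {ρ Ω r : ℝ} (hr : 0 < r) (hrρ : r ≤ ρ)
    (hΩ : ∀ y, nrm (y - x₀) < ρ → nrm (vort v y) ≤ Ω) :
    Jv v x₀ e r ≤ Ω * ∫ z, P 2 z := by
  unfold Jv
  refine (le_abs_self _).trans ?_
  rw [← integral_const_mul, ← Real.norm_eq_abs]
  refine norm_integral_le_of_norm_le ((P_integrable 1).const_mul _)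
    (Eventually.of_forall fun z => ?_)
  rw [Real.norm_eq_abs, abs_mul, abs_of_nonneg (K3_nonneg z)]
  rcases lt_or_ge (z ⬝ᵥ z) 1 with hz | hz
  · have h1 := hΩ _ (scaled_mem (x₀ := x₀) hr hrρ hz)
    have h2 : |vort v (x₀ + r • z) ⬝ᵥ e| ≤ Ω := by
      refine (dot_le _ _).trans ?_
      rw [nrm_unit he, mul_one]
      exact h1
    have hΩ0 : 0 ≤ Ω := (nrm_nonneg _).trans h1
    calc K3 z * |vort v (x₀ + r • z) ⬝ᵥ e| ≤ P 2 z * Ω := by
          have h3 := K3_nonneg z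
          have h4 := K3_le z
          have h5 := P_nonneg 2 z
          gcongr
      _ = Ω * P (1 + 1) z := mul_comm _ _
  · rw [K3_zero hz, zero_mul, show P (1 + 1) z = 0 from P_zero_of hz, mul_zero]

/-- The bound of `J` by the variation of the velocity. -/
lemma Jv_far (hv : ContDiff ℝ 2 v) (he : e ⬝ᵥ e = 1) {ρ U r : ℝ} (hr : 0 < r) (hrρ : r ≤ ρ)
    (hU0 : 0 ≤ U) (hU : ∀ y, nrm (y - x₀) < ρ → nrm (v y - v x₀) ≤ U) :
    Jv v x₀ e r ≤ 42 * U * (∫ z, P 1 z) / r := by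
  set δ : Fin 3 → V → ℝ := fun j z => v (x₀ + r • z) j - v x₀ j with hδ
  have hvj : ∀ j, ContDiff ℝ 1 fun y => v y j := fun j =>
    (contDiff_pi.1 hv j).of_le (by norm_num)
  have cδ : ∀ j, ContDiff ℝ 1 (δ j) := fun j => (comp_aff (hvj j) x₀ r).sub contDiff_const
  have dδ : ∀ j k z, fderiv ℝ (δ j) z (Pi.single k 1) = r * grad v (x₀ + r • z) j k := by
    intro j k z
    have h1 : fderiv ℝ (δ j) z = fderiv ℝ (fun z => v (x₀ + r • z) j) z := fderiv_sub_const _
    rw [h1, fderiv_comp_aff (S := fun y => v y j) (hvj j), smul_eq_mul]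
    congr 1
    have h2 : HasFDerivAt v (fderiv ℝ v (x₀ + r • z)) (x₀ + r • z) :=
      ((hv.differentiable two_ne_zero) _).hasFDerivAt
    have h3 := (hasFDerivAt_pi'.1 h2 j).fderiv
    rw [h3]
    rfl
  have T : ∀ k j, |∫ z, K3 z * fderiv ℝ (δ j) z (Pi.single k 1)| ≤ 7 * U * ∫ z, P 1 z := by
    intro k j
    rw [ibp K3_contDiff K3_supp (cδ j), abs_neg, ← integral_const_mul, ← Real.norm_eq_abs]
    refine norm_integral_le_of_norm_le ((P_integrable 0).const_mul _)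
      (Eventually.of_forall fun z => ?_)
    rw [Real.norm_eq_abs, abs_mul]
    have hp1 := P_nonneg 1 z
    have h1 := K3_fderiv z k
    rcases lt_or_ge (z ⬝ᵥ z) 1 with hz | hz
    · have b1 : |δ j z| ≤ U :=
        (abs_le_nrm (v (x₀ + r • z) - v x₀) j).trans (hU _ (scaled_mem (x₀ := x₀) hr hrρ hz))
      calc |fderiv ℝ K3 z (Pi.single k 1)| * |δ j z| ≤ (7 * P 1 z) * U := by gcongr
        _ = 7 * U * P (0 + 1) z := by ring
    · have e1 : P 1 z = 0 := P_zero_of hz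
      rw [e1, mul_zero] at h1
      have h2 : |fderiv ℝ K3 z (Pi.single k 1)| = 0 := le_antisymm h1 (abs_nonneg _)
      rw [h2, zero_mul]
      have := P_nonneg (0 + 1) z
      positivity
  have ci : ∀ k j, Integrable fun z => K3 z * fderiv ℝ (δ j) z (Pi.single k 1) := by
    intro k j
    exact (K3_contDiff.continuous.mul (((cδ j).continuous_fderiv one_ne_zero).clm_apply
      continuous_const)).integrable_of_hasCompactSupport K3_supp.mul_right
  have key : r * Jv v x₀ e r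
      = e 0 * ((∫ z, K3 z * fderiv ℝ (δ 2) z (Pi.single 1 1))
          - ∫ z, K3 z * fderiv ℝ (δ 1) z (Pi.single 2 1))
        + (e 1 * ((∫ z, K3 z * fderiv ℝ (δ 0) z (Pi.single 2 1))
          - ∫ z, K3 z * fderiv ℝ (δ 2) z (Pi.single 0 1))
        + e 2 * ((∫ z, K3 z * fderiv ℝ (δ 1) z (Pi.single 0 1))
          - ∫ z, K3 z * fderiv ℝ (δ 0) z (Pi.single 1 1))) := by
    have i0 : Integrable fun z => e 0 * (K3 z * fderiv ℝ (δ 2) z (Pi.single 1 1)
        - K3 z * fderiv ℝ (δ 1) z (Pi.single 2 1)) := ((ci 1 2).sub (ci 2 1)).const_mul _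
    have i1 : Integrable fun z => e 1 * (K3 z * fderiv ℝ (δ 0) z (Pi.single 2 1)
        - K3 z * fderiv ℝ (δ 2) z (Pi.single 0 1)) := ((ci 2 0).sub (ci 0 2)).const_mul _
    have i2 : Integrable fun z => e 2 * (K3 z * fderiv ℝ (δ 1) z (Pi.single 0 1)
        - K3 z * fderiv ℝ (δ 0) z (Pi.single 1 1)) := ((ci 0 1).sub (ci 1 0)).const_mul _
    have i12 : Integrable fun z => e 1 * (K3 z * fderiv ℝ (δ 0) z (Pi.single 2 1)
        - K3 z * fderiv ℝ (δ 2) z (Pi.single 0 1)) + e 2 * (K3 z * fderiv ℝ (δ 1) z (Pi.single 0 1)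
        - K3 z * fderiv ℝ (δ 0) z (Pi.single 1 1)) := i1.add i2
    unfold Jv
    rw [← integral_sub (ci 1 2) (ci 2 1), ← integral_sub (ci 2 0) (ci 0 2),
      ← integral_sub (ci 0 1) (ci 1 0), ← integral_const_mul, ← integral_const_mul,
      ← integral_const_mul, ← integral_const_mul, ← integral_add i1 i2, ← integral_add i0 i12]
    refine integral_congr_ae (Eventually.of_forall fun z => ?_)
    simp only [dδ, vort, dotProduct, Fin.sum_univ_three, Matrix.cons_val_zero,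
      Matrix.cons_val_one, Matrix.cons_val]
    ring
  have he1 : ∀ i, |e i| ≤ 1 := fun i => by
    have := abs_le_nrm e i
    rwa [nrm_unit he] at this
  set I := ∫ z, P 1 z with hI
  have hI0 : 0 < I := P_int_pos 0
  have bd : ∀ (c a b : ℝ), |c| ≤ 1 → |a| ≤ 7 * U * I → |b| ≤ 7 * U * I →
      c * (a - b) ≤ 14 * U * I := by
    intro c a b hc ha hb
    have h1 : |a - b| ≤ 14 * U * I := (abs_sub _ _).trans (by linarith)
    calc c * (a - b) ≤ |c * (a - b)| := le_abs_self _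
      _ = |c| * |a - b| := abs_mul _ _
      _ ≤ 1 * (14 * U * I) := by gcongr
      _ = 14 * U * I := one_mul _
  rw [le_div_iff₀ hr, mul_comm, key]
  have t0 := bd _ _ _ (he1 0) (T 1 2) (T 2 1)
  have t1 := bd _ _ _ (he1 1) (T 2 0) (T 0 2)
  have t2 := bd _ _ _ (he1 2) (T 0 1) (T 1 0)
  linarith

/-- Integration by parts for the average at the radius `r`. -/
lemma Av_ibp (hv : ContDiff ℝ 2 v) (c : V) (r : ℝ) :
    r * Av v x₀ e r = -∫ z, fderiv ℝ (P 3) z e * (e ⬝ᵥ (v (x₀ + r • z) - c)) := by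
  have hvj : ∀ j, ContDiff ℝ 1 fun y => v y j := fun j =>
    (contDiff_pi.1 hv j).of_le (by norm_num)
  set w : V → ℝ := fun y => ∑ j, e j * v y j with hw
  have cw : ContDiff ℝ 1 w := ContDiff.sum fun j _ => contDiff_const.mul (hvj j)
  set δ : V → ℝ := fun z => w (x₀ + r • z) - e ⬝ᵥ c with hδ
  have cδ : ContDiff ℝ 1 δ := (comp_aff cw x₀ r).sub contDiff_const
  have dδ : ∀ z, fderiv ℝ δ z e = r * rate v e (x₀ + r • z) := by
    intro z
    have h1 : fderiv ℝ δ z = fderiv ℝ (fun z => w (x₀ + r • z)) z := fderiv_sub_const _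
    rw [h1, fderiv_comp_aff cw, smul_eq_mul]
    congr 1
    have h2 : HasFDerivAt v (fderiv ℝ v (x₀ + r • z)) (x₀ + r • z) :=
      ((hv.differentiable two_ne_zero) _).hasFDerivAt
    have h3 : HasFDerivAt w (∑ j, e j • ((ContinuousLinearMap.proj j : V →L[ℝ] ℝ) ∘L
        fderiv ℝ v (x₀ + r • z))) (x₀ + r • z) :=
      HasFDerivAt.fun_sum fun j _ => (hasFDerivAt_pi'.1 h2 j).const_mul (e j)
    rw [h3.fderiv]
    have h4 : fderiv ℝ v (x₀ + r • z) e = ∑ k, e k • fderiv ℝ v (x₀ + r • z) (Pi.single k 1) := by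
      conv_lhs => rw [show e = ∑ k, e k • (Pi.single k 1 : V) by
        ext i; simp [Finset.sum_apply, Pi.single_apply]]
      rw [map_sum]
      simp
    simp only [FunLike.coe_sum, Finset.sum_apply, FunLike.coe_smul, Pi.smul_apply,
      ContinuousLinearMap.comp_apply, smul_eq_mul, h4, rate, dotProduct, Matrix.mulVec, grad,
      Matrix.of_apply]
    refine Finset.sum_congr rfl fun j _ => ?_
    simp [mul_comm]
  have h1 : r * ∫ z, P 3 z * rate v e (x₀ + r • z) = -∫ z, fderiv ℝ (P 3) z e * δ z := by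
    rw [← ibp (P_contDiff 1) (P_supp 2) cδ e, ← integral_const_mul]
    refine integral_congr_ae (Eventually.of_forall fun z => ?_)
    simp only [dδ]
    ring
  unfold Av
  rw [h1]
  congr 1
  refine integral_congr_ae (Eventually.of_forall fun z => ?_)
  simp only [hδ, hw, dotProduct, Pi.sub_apply, Fin.sum_univ_three]
  ring

lemma P3_fderiv_le (he : e ⬝ᵥ e = 1) (z : V) : |fderiv ℝ (P 3) z e| ≤ 6 * P 2 z := by
  rw [show P 3 = P (1 + 2) from rfl, P_fderiv 1 z e]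
  have e3 : |-2 * (((1 : ℕ) : ℝ) + 2) * P (1 + 1) z * (z ⬝ᵥ e)| = 6 * P 2 z * |z ⬝ᵥ e| := by
    rw [abs_mul, abs_mul, abs_of_nonneg (P_nonneg (1 + 1) z)]
    norm_num
  rw [e3]
  have hp := P_nonneg 2 z
  rcases lt_or_ge (z ⬝ᵥ z) 1 with hz | hz
  · have hz1 := (nrm_lt_one hz).le
    have b1 : |z ⬝ᵥ e| ≤ 1 := (dot_le _ _).trans (by rw [nrm_unit he, mul_one]; exact hz1)
    calc 6 * P 2 z * |z ⬝ᵥ e| ≤ 6 * P 2 z * 1 := by gcongr
      _ = 6 * P 2 z := mul_one _
  · rw [show P 2 z = 0 from P_zero_of hz]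
    simp

/-- The average at the radius `ρ` is bounded by the variation of the velocity. -/
lemma Av_vel (hv : ContDiff ℝ 2 v) (he : e ⬝ᵥ e = 1) {ρ U : ℝ} (hρ : 0 < ρ)
    (hU : ∀ y, nrm (y - x₀) < ρ → nrm (v y - v x₀) ≤ U) :
    Av v x₀ e ρ ≤ 6 * (∫ z, P 2 z) * (U / ρ) := by
  have h1 := Av_ibp (x₀ := x₀) (e := e) hv (v x₀) ρ
  have h2 : |∫ z, fderiv ℝ (P 3) z e * (e ⬝ᵥ (v (x₀ + ρ • z) - v x₀))| ≤ 6 * U * ∫ z, P 2 z := by
    rw [← integral_const_mul, ← Real.norm_eq_abs]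
    refine norm_integral_le_of_norm_le ((P_integrable 1).const_mul _)
      (Eventually.of_forall fun z => ?_)
    rw [Real.norm_eq_abs, abs_mul]
    have h3 := P3_fderiv_le he z
    have hp := P_nonneg 2 z
    rcases lt_or_ge (z ⬝ᵥ z) 1 with hz | hz
    · have h4 := hU _ (scaled_mem (x₀ := x₀) hρ le_rfl hz)
      have b2 : |e ⬝ᵥ (v (x₀ + ρ • z) - v x₀)| ≤ U := by
        refine (dot_le _ _).trans ?_
        rw [nrm_unit he, one_mul]
        exact h4
      calc |fderiv ℝ (P 3) z e| * |e ⬝ᵥ (v (x₀ + ρ • z) - v x₀)| ≤ (6 * P 2 z) * U := by gcongr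
        _ = 6 * U * P (1 + 1) z := by ring
    · rw [show P 2 z = 0 from P_zero_of hz, mul_zero] at h3
      have h5 : |fderiv ℝ (P 3) z e| = 0 := le_antisymm h3 (abs_nonneg _)
      rw [h5, zero_mul, show P (1 + 1) z = 0 from P_zero_of hz, mul_zero]
  have h3 : ρ * Av v x₀ e ρ ≤ 6 * U * ∫ z, P 2 z := by
    rw [h1]
    exact (neg_le_abs _).trans h2
  have h4 : Av v x₀ e ρ ≤ (6 * U * ∫ z, P 2 z) / ρ := by
    rw [le_div_iff₀ hρ, mul_comm]
    exact h3
  refine h4.trans (le_of_eq ?_)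
  ring

/-- The average at the radius `ρ` is bounded by the local energy. -/
lemma Av_local (hv : ContDiff ℝ 2 v) (he : e ⬝ᵥ e = 1) {ρ E : ℝ} (hρ : 0 < ρ)
    (hE : ∫ z, P 2 z * sq3 (v (x₀ + ρ • z)) ≤ E) {l : ℝ} (hl : 0 < l) :
    ρ * Av v x₀ e ρ ≤ 3 * (l * (∫ z, P 2 z) + E / l) := by
  have h1 := Av_ibp (x₀ := x₀) (e := e) hv 0 ρ
  simp only [sub_zero] at h1
  have hcv : Continuous fun z : V => v (x₀ + ρ • z) := hv.continuous.comp (by fun_prop)
  have hsq : Continuous fun z : V => sq3 (v (x₀ + ρ • z)) :=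
    ((sq3_contDiff (n := 1)).continuous).comp hcv
  have hi2 : Integrable fun z : V => P 2 z * sq3 (v (x₀ + ρ • z)) :=
    ((P_cont 2).mul hsq).integrable_of_hasCompactSupport (P_supp 1).mul_right
  have hi : Integrable fun z : V => 3 * (l * P 2 z + (P 2 z * sq3 (v (x₀ + ρ • z))) / l) :=
    (((P_integrable 1).const_mul l).add (hi2.div_const l)).const_mul 3
  have h2 : |∫ z, fderiv ℝ (P 3) z e * (e ⬝ᵥ v (x₀ + ρ • z))|
      ≤ ∫ z, 3 * (l * P 2 z + (P 2 z * sq3 (v (x₀ + ρ • z))) / l) := by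
    rw [← Real.norm_eq_abs]
    refine norm_integral_le_of_norm_le hi (Eventually.of_forall fun z => ?_)
    rw [Real.norm_eq_abs, abs_mul]
    have h3 := P3_fderiv_le he z
    have hp := P_nonneg 2 z
    have h4 : |e ⬝ᵥ v (x₀ + ρ • z)| ≤ nrm (v (x₀ + ρ • z)) := by
      refine (dot_le _ _).trans ?_
      rw [nrm_unit he, one_mul]
    have h5 : sq3 (v (x₀ + ρ • z)) = nrm (v (x₀ + ρ • z)) ^ 2 := by
      rw [nrm_sq]
      simp only [sq3, dotProduct, sq]
    set N := nrm (v (x₀ + ρ • z)) with hN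
    have hN0 : 0 ≤ N := nrm_nonneg _
    have h6 : 2 * N ≤ l + N ^ 2 / l := by
      rw [← sub_nonneg]
      have : l + N ^ 2 / l - 2 * N = (l - N) ^ 2 / l := by
        field_simp
        ring
      rw [this]
      positivity
    calc |fderiv ℝ (P 3) z e| * |e ⬝ᵥ v (x₀ + ρ • z)| ≤ (6 * P 2 z) * N := by gcongr
      _ = 3 * P 2 z * (2 * N) := by ring
      _ ≤ 3 * P 2 z * (l + N ^ 2 / l) := by gcongr
      _ = 3 * (l * P 2 z + (P 2 z * sq3 (v (x₀ + ρ • z))) / l) := by rw [h5]; ring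
  have h3 : ∫ z, 3 * (l * P 2 z + (P 2 z * sq3 (v (x₀ + ρ • z))) / l)
      ≤ 3 * (l * (∫ z, P 2 z) + E / l) := by
    rw [integral_const_mul, integral_add ((P_integrable 1).const_mul l) (hi2.div_const l),
      integral_const_mul, integral_div]
    gcongr
  rw [h1]
  exact (neg_le_abs _).trans (h2.trans h3)

end Pool.Agent.K3h69.OS
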