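import Pool.Agent.K3h69.OS.Energy

/-!
# The stretching rate under a one-sided condition on the twist: static estimates
-/

open MeasureTheory Set Filter
open scoped ENNReal NNReal Topology

namespace Pool.Agent.K3h69.OS

open Pool.Agent.H708R2.EulerSign Pool.Agent.H708R2.EulerTypeI Pool.Agent.W786.Dir

variable {v : V → V} {x₀ e : V}

lemma dini_int {m : ℝ → ℝ} {B G : ℝ} (hD : Dini m B) (hG : 0 < G) :
    IntervalIntegrable (fun r => m (G * r) / r) volume 0 (1 / G) ∧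
      ∫ r in (0 : ℝ)..1 / G, m (G * r) / r ≤ B := by
  obtain ⟨_, _, hi, hB⟩ := hD
  have h1 : IntervalIntegrable (fun s => m s / s) volume 0 1 := by
    rw [intervalIntegrable_iff_integrableOn_Ioo_of_le zero_le_one]
    exact hi
  have h2 : IntervalIntegrable (fun r => (fun s => m s / s) (G * r)) volume (0 / G) (1 / G) :=
    h1.comp_mul_left
  rw [zero_div] at h2
  have e1 : (fun r => m (G * r) / r) = fun r => G * (fun s => m s / s) (G * r) := by
    funext r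
    simp only
    rcases eq_or_ne r 0 with hr | hr
    · subst hr; simp
    · field_simp
  rw [e1]
  refine ⟨h2.const_mul G, ?_⟩
  rw [intervalIntegral.integral_const_mul, intervalIntegral.integral_comp_mul_left (fun s => m s / s) hG.ne',
    mul_zero, mul_one_div_cancel hG.ne', smul_eq_mul, ← mul_assoc, mul_inv_cancel₀ hG.ne', one_mul,
    intervalIntegral.integral_of_le zero_le_one, integral_Ioc_eq_integral_Ioo]
  exact hB

/-- The constant of the energy version. -/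
noncomputable def CE : ℝ := 6 * Real.sqrt (∫ z, P 2 z) / ∫ z, P 3 z

lemma CE_pos : 0 < CE := by
  have h2 : 0 < ∫ z, P 2 z := P_int_pos 1
  have h3 : 0 < ∫ z, P 3 z := P_int_pos 2
  unfold CE
  positivity

/-- The constant of the velocity version. -/
noncomputable def CV : ℝ := (6 * (∫ z, P 2 z) + 252 * ∫ z, P 1 z) / ∫ z, P 3 z

lemma CV_pos : 0 < CV := by
  have h1 : 0 < ∫ z, P 1 z := P_int_pos 0
  have h2 : 0 < ∫ z, P 2 z := P_int_pos 1
  have h3 : 0 < ∫ z, P 3 z := P_int_pos 2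
  unfold CV
  positivity

section

variable {G θ n B : ℝ} {m : ℝ → ℝ}

/-- Integration of the derivative of the averages over `[a, b] ⊆ [0, 1 / G]`. -/
lemma Av_step (hv : ContDiff ℝ 2 v) (hdiv : ∀ x, divergence v x = 0)
    (hG : 0 < G) (hn : 0 < n) (he : e ⬝ᵥ e = 1) (hω : vort v x₀ = n • e)
    (hD : Dini m B)
    (hc : ∀ y : V, nrm y < 1 / G →
      (y ⬝ᵥ vort v x₀) * (vort v (x₀ + y) ⬝ᵥ cross (vort v x₀) y) ≤
      nrm y ^ 2 * (m (G * nrm y) * nrm (vort v x₀) ^ 2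
        + θ * (G * nrm y) * (nrm (vort v x₀) * (vort v (x₀ + y) ⬝ᵥ vort v x₀))))
    {a b : ℝ} (ha : 0 ≤ a) (hab : a ≤ b) (hb : b ≤ 1 / G) {J : ℝ → ℝ}
    (hJi : IntegrableOn J (Icc a b)) (hJ : ∀ r ∈ Ioo a b, θ * Jv v x₀ e r ≤ J r) :
    Av v x₀ e a ≤ Av v x₀ e b + 3 * (∫ z, P 3 z) * (∫ r in a..b, m (G * r) / r)
      + 6 * G * ∫ r in a..b, J r := by
  have hmi : IntegrableOn (fun r => m (G * r) / r) (Icc a b) := by
    rw [← intervalIntegrable_iff_integrableOn_Icc_of_le hab]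
    refine (dini_int hD hG).1.mono_set ?_
    rw [uIcc_of_le hab, uIcc_of_le (ha.trans (hab.trans hb))]
    exact Icc_subset_Icc ha hb
  have hφ : IntegrableOn (fun r => 3 * (∫ z, P 3 z) * (m (G * r) / r) + 6 * G * J r) (Icc a b) :=
    (hmi.const_mul _).add (hJi.const_mul _)
  have h1 := intervalIntegral.sub_le_integral_of_hasDeriv_right_of_le (g := fun r => -Av v x₀ e r)
    (g' := fun r => -Av' v x₀ e r) hab
    (fun r _ => (Av_deriv hv r).neg.continuousAt.continuousWithinAt)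
    (fun r _ => (Av_deriv hv r).neg.hasDerivWithinAt) hφ (fun r hr => by
      have hr' : r ∈ Ioo 0 (1 / G) := ⟨ha.trans_lt hr.1, hr.2.trans_le hb⟩
      have h2 := neg_dA hv hdiv hG hn he hω hD.1 hc hr'
      refine h2.trans ?_
      have h3 := hJ r hr
      have h4 : 6 * (θ * G) * Jv v x₀ e r = 6 * G * (θ * Jv v x₀ e r) := by ring
      rw [h4]
      have h5 : 6 * G * (θ * Jv v x₀ e r) ≤ 6 * G * J r := mul_le_mul_of_nonneg_left h3 (by positivity)
      linarith)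
  rw [intervalIntegral.integral_add, intervalIntegral.integral_const_mul,
    intervalIntegral.integral_const_mul] at h1
  · linarith
  · exact (intervalIntegrable_iff_integrableOn_Icc_of_le hab).2 (hmi.const_mul _)
  · exact (intervalIntegrable_iff_integrableOn_Icc_of_le hab).2 (hJi.const_mul _)

/-- The static estimate with the energy. -/
lemma rate_energy (hv : ContDiff ℝ 2 v) (hp : Periodic3 v) (hdiv : ∀ x, divergence v x = 0)
    (hG : 1 ≤ G) (hn : 0 < n) (he : e ⬝ᵥ e = 1) (hω : vort v x₀ = n • e)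
    (hD : Dini m B)
    (hc : ∀ y : V, nrm y < 1 / G →
      (y ⬝ᵥ vort v x₀) * (vort v (x₀ + y) ⬝ᵥ cross (vort v x₀) y) ≤
      nrm y ^ 2 * (m (G * nrm y) * nrm (vort v x₀) ^ 2
        + 0 * (G * nrm y) * (nrm (vort v x₀) * (vort v (x₀ + y) ⬝ᵥ vort v x₀)))) :
    rate v e x₀ ≤ 3 * B + CE * Real.sqrt (∫ x in Dom, sq3 (v x)) * G ^ (5 / 2 : ℝ) := by
  have hG0 : 0 < G := by linarith
  have c2 : 0 < ∫ z, P 2 z := P_int_pos 1
  have c3 : 0 < ∫ z, P 3 z := P_int_pos 2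
  have h1 := Av_step hv hdiv hG0 hn he hω hD hc le_rfl (by positivity : (0 : ℝ) ≤ 1 / G) le_rfl
    (J := fun _ => 0) (by simp) (fun r _ => by simp)
  have h2 := (dini_int hD hG0).2
  rw [Av_zero] at h1
  simp only [intervalIntegral.integral_zero, mul_zero, add_zero] at h1
  set I2 := ∫ z, P 2 z with hI2
  set I3 := ∫ z, P 3 z with hI3
  set E := ∫ x in Dom, sq3 (v x) with hE
  have hE0 : 0 ≤ E := integral_nonneg fun _ => sq3_nonneg _
  have hfp : Periodic3 fun x => sq3 (v x) := by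
    intro i x
    simp only
    rw [hp i x]
  have hfc : Continuous fun x => sq3 (v x) := ((sq3_contDiff (n := 1)).continuous).comp hv.continuous
  have h3 := local_energy hfc hfp (fun _ => sq3_nonneg _) x₀ (r := 1 / G) (by positivity)
    (by rw [div_le_one hG0]; exact hG)
  have h4 : ((1 / G) ^ 3)⁻¹ = G ^ 3 := by
    rw [one_div, inv_pow, inv_inv]
  rw [h4] at h3
  -- the optimal choice of the parameter
  have h5 : 1 / G * Av v x₀ e (1 / G) ≤ 6 * Real.sqrt I2 * (Real.sqrt E * Real.sqrt (G ^ 3)) := by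
    rcases hE0.eq_or_lt with h0 | h0
    · rw [← hE, ← h0, mul_zero] at h3
      rw [← h0, Real.sqrt_zero]
      simp only [zero_mul, mul_zero]
      refine le_of_forall_pos_le_add fun ε hε => ?_
      have h6 := Av_local (x₀ := x₀) (e := e) hv he (by positivity : 0 < 1 / G) h3
        (l := ε / (3 * I2)) (by positivity)
      rw [zero_div, add_zero] at h6
      refine h6.trans (le_of_eq ?_)
      rw [← hI2]
      field_simp
      ring
    · have hEG : 0 < G ^ 3 * E := by positivity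
      have h6 := Av_local (x₀ := x₀) (e := e) hv he (by positivity : 0 < 1 / G) h3
        (l := Real.sqrt (G ^ 3 * E) / Real.sqrt I2) (by positivity)
      refine h6.trans (le_of_eq ?_)
      rw [← hI2]
      have s1 : Real.sqrt (G ^ 3 * E) = Real.sqrt (G ^ 3) * Real.sqrt E := Real.sqrt_mul (by positivity) _
      have s2 : Real.sqrt I2 ^ 2 = I2 := Real.sq_sqrt c2.le
      have s3 : Real.sqrt (G ^ 3 * E) ^ 2 = G ^ 3 * E := Real.sq_sqrt hEG.le
      have p1 : 0 < Real.sqrt I2 := Real.sqrt_pos.2 c2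
      have p2 : 0 < Real.sqrt (G ^ 3 * E) := Real.sqrt_pos.2 hEG
      rw [mul_comm (Real.sqrt E), ← s1]
      have s4 : Real.sqrt (G ^ 3 * E) / Real.sqrt I2 * I2 = Real.sqrt (G ^ 3 * E) * Real.sqrt I2 := by
        rw [div_mul_eq_mul_div, div_eq_iff p1.ne', mul_assoc, ← sq, s2]
      have s5 : G ^ 3 * E / (Real.sqrt (G ^ 3 * E) / Real.sqrt I2)
          = Real.sqrt (G ^ 3 * E) * Real.sqrt I2 := by
        rw [div_div_eq_mul_div, div_eq_iff p2.ne']
        calc G ^ 3 * E * Real.sqrt I2 = Real.sqrt (G ^ 3 * E) ^ 2 * Real.sqrt I2 := by rw [s3]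
          _ = _ := by ring
      rw [s4, s5]
      ring
  have h6 : Real.sqrt (G ^ 3) * G = G ^ (5 / 2 : ℝ) := by
    rw [Real.sqrt_eq_rpow, ← Real.rpow_natCast, ← Real.rpow_mul hG0.le]
    nth_rewrite 2 [← Real.rpow_one G]
    rw [← Real.rpow_add hG0]
    norm_num
  have h7 : Av v x₀ e (1 / G) ≤ 6 * Real.sqrt I2 * (Real.sqrt E * G ^ (5 / 2 : ℝ)) := by
    rw [← h6]
    have h8 : Av v x₀ e (1 / G) = G * (1 / G * Av v x₀ e (1 / G)) := by field_simp
    rw [h8]
    calc G * (1 / G * Av v x₀ e (1 / G))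
        ≤ G * (6 * Real.sqrt I2 * (Real.sqrt E * Real.sqrt (G ^ 3))) := by gcongr
      _ = _ := by ring
  have h8 : I3 * rate v e x₀ ≤ I3 * (3 * B + CE * Real.sqrt E * G ^ (5 / 2 : ℝ)) := by
    have e1 : I3 * (3 * B + CE * Real.sqrt E * G ^ (5 / 2 : ℝ))
        = 3 * I3 * B + 6 * Real.sqrt I2 * (Real.sqrt E * G ^ (5 / 2 : ℝ)) := by
      unfold CE
      rw [← hI2, ← hI3]
      field_simp
    rw [e1]
    have h9 : 3 * I3 * (∫ r in (0 : ℝ)..1 / G, m (G * r) / r) ≤ 3 * I3 * B := by gcongr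
    linarith
  exact le_of_mul_le_mul_left h8 c3

/-- The static estimate with the variation of the velocity. -/
lemma rate_vel (hv : ContDiff ℝ 2 v) (hdiv : ∀ x, divergence v x = 0)
    (hG : 0 < G) (hθ : 0 ≤ θ) (hn : 0 < n) (he : e ⬝ᵥ e = 1) (hω : vort v x₀ = n • e)
    (hD : Dini m B)
    (hc : ∀ y : V, nrm y < 1 / G →
      (y ⬝ᵥ vort v x₀) * (vort v (x₀ + y) ⬝ᵥ cross (vort v x₀) y) ≤
      nrm y ^ 2 * (m (G * nrm y) * nrm (vort v x₀) ^ 2
        + θ * (G * nrm y) * (nrm (vort v x₀) * (vort v (x₀ + y) ⬝ᵥ vort v x₀))))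
    {U Ω : ℝ} (hU : ∀ y, nrm (y - x₀) < 1 / G → nrm (v y - v x₀) ≤ U)
    (hΩ : ∀ y, nrm (y - x₀) < 1 / G → nrm (vort v y) ≤ Ω) {δ : ℝ} (hδ : 0 < δ) (hδ1 : δ ≤ 1) :
    rate v e x₀ ≤ 3 * B + CV * (U * G * (1 + θ * Real.log (1 / δ)) + θ * δ * Ω) := by
  have c1 : 0 < ∫ z, P 1 z := P_int_pos 0
  have c2 : 0 < ∫ z, P 2 z := P_int_pos 1
  have c3 : 0 < ∫ z, P 3 z := P_int_pos 2
  have h0 : nrm (x₀ - x₀) < 1 / G := by
    rw [sub_self]
    have : nrm (0 : V) = 0 := by simp [nrm]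
    rw [this]
    positivity
  have hU0 : 0 ≤ U := (nrm_nonneg _).trans (hU _ h0)
  have hΩ0 : 0 ≤ Ω := (nrm_nonneg _).trans (hΩ _ h0)
  set ρ := 1 / G with hρ'
  have hρ : 0 < ρ := by positivity
  set r₀ := δ * ρ with hr₀'
  have hr₀ : 0 < r₀ := by positivity
  have hr₀ρ : r₀ ≤ ρ := mul_le_of_le_one_left hρ.le hδ1
  set I1 := ∫ z, P 1 z with hI1
  set I2 := ∫ z, P 2 z with hI2
  set I3 := ∫ z, P 3 z with hI3
  have s1 := Av_step (J := fun _ => θ * (Ω * I2)) hv hdiv hG hn he hω hD hc le_rfl hr₀.le hr₀ρ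
    (integrableOn_const (by simp)) (fun r hr =>
      mul_le_mul_of_nonneg_left (Jv_near he hr.1 (hr.2.le.trans hr₀ρ) hΩ) hθ)
  have hJ2i : IntegrableOn (fun r => θ * (42 * U * I1 / r)) (Icc r₀ ρ) := by
    refine ContinuousOn.integrableOn_Icc ?_
    refine continuousOn_const.mul (continuousOn_const.div continuousOn_id fun r hr => ?_)
    exact (hr₀.trans_le hr.1).ne'
  have s2 := Av_step (J := fun r => θ * (42 * U * I1 / r)) hv hdiv hG hn he hω hD hc hr₀.le hr₀ρ le_rfl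
    hJ2i (fun r hr =>
      mul_le_mul_of_nonneg_left (Jv_far hv he (hr₀.trans hr.1) hr.2.le hU0 hU) hθ)
  have e1 : ∫ r in (0 : ℝ)..r₀, θ * (Ω * I2) = θ * (Ω * I2) * r₀ := by
    rw [intervalIntegral.integral_const, smul_eq_mul, sub_zero, mul_comm]
  have e2 : ∫ r in r₀..ρ, θ * (42 * U * I1 / r) = θ * (42 * U * I1) * Real.log (1 / δ) := by
    have e3 : (fun r : ℝ => θ * (42 * U * I1 / r)) = fun r => θ * (42 * U * I1) * r⁻¹ := by
      funext r
      ring
    rw [e3, intervalIntegral.integral_const_mul, integral_inv_of_pos hr₀ hρ]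
    congr 2
    rw [hr₀']
    field_simp
  have hsum : (∫ r in (0 : ℝ)..r₀, m (G * r) / r) + ∫ r in r₀..ρ, m (G * r) / r
      = ∫ r in (0 : ℝ)..ρ, m (G * r) / r := by
    have hI := (dini_int hD hG).1
    refine intervalIntegral.integral_add_adjacent_intervals (hI.mono_set ?_) (hI.mono_set ?_)
    · rw [uIcc_of_le hr₀.le, uIcc_of_le hρ.le]
      exact Icc_subset_Icc le_rfl hr₀ρ
    · rw [uIcc_of_le hr₀ρ, uIcc_of_le hρ.le]
      exact Icc_subset_Icc hr₀.le le_rfl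
  have hB := (dini_int hD hG).2
  have s3 := Av_vel (x₀ := x₀) (e := e) hv he hρ hU
  rw [e1] at s1
  rw [e2] at s2
  rw [Av_zero, ← hI3] at s1
  have hG1 : G * ρ = 1 := by rw [hρ']; field_simp
  have hUρ : U / ρ = U * G := by rw [hρ']; field_simp
  rw [hUρ, ← hI2] at s3
  have hlog0 : 0 ≤ Real.log (1 / δ) := Real.log_nonneg (by rw [le_div_iff₀ hδ]; linarith)
  have h8 : I3 * rate v e x₀ ≤ I3 * (3 * B + CV * (U * G * (1 + θ * Real.log (1 / δ)) + θ * δ * Ω)) := by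
    have e3 : I3 * (3 * B + CV * (U * G * (1 + θ * Real.log (1 / δ)) + θ * δ * Ω))
        = 3 * I3 * B + (6 * I2 + 252 * I1) * (U * G * (1 + θ * Real.log (1 / δ)) + θ * δ * Ω) := by
      unfold CV
      rw [← hI1, ← hI2, ← hI3]
      field_simp
    rw [e3]
    have h9 : 3 * I3 * (∫ r in (0 : ℝ)..ρ, m (G * r) / r) ≤ 3 * I3 * B := by gcongr
    have h10 : 3 * I3 * (∫ r in (0 : ℝ)..r₀, m (G * r) / r)
        + 3 * I3 * (∫ r in r₀..ρ, m (G * r) / r) = 3 * I3 * ∫ r in (0 : ℝ)..ρ, m (G * r) / r := by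
      rw [← mul_add, hsum]
    have h11 : 6 * G * (θ * (Ω * I2) * r₀) = 6 * I2 * (θ * δ * Ω) := by
      rw [hr₀']
      calc 6 * G * (θ * (Ω * I2) * (δ * ρ)) = 6 * I2 * (θ * δ * Ω) * (G * ρ) := by ring
        _ = _ := by rw [hG1, mul_one]
    have h12 : 6 * G * (θ * (42 * U * I1) * Real.log (1 / δ))
        = 252 * I1 * (U * G * (θ * Real.log (1 / δ))) := by ring
    rw [h11] at s1
    rw [h12] at s2
    have q1 : 0 ≤ I1 * (U * G) := by positivity
    have q2 : 0 ≤ I1 * (θ * δ * Ω) := by positivity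
    have q3 : 0 ≤ I2 * (U * G * (θ * Real.log (1 / δ))) := by positivity
    nlinarith
  exact le_of_mul_le_mul_left h8 c3

end

/-! ## The stretching term -/

lemma unit_dir {w : V} (hw : 0 < nrm w) :
    ((nrm w)⁻¹ • w) ⬝ᵥ ((nrm w)⁻¹ • w) = 1 ∧ w = nrm w • ((nrm w)⁻¹ • w) := by
  constructor
  · rw [smul_dotProduct, dotProduct_smul, ← nrm_sq, smul_eq_mul, smul_eq_mul]
    field_simp
  · rw [smul_smul, mul_inv_cancel₀ hw.ne', one_smul]

lemma stretch_eq {n : ℝ} (hω : vort v x₀ = n • e) :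
    vort v x₀ ⬝ᵥ (grad v x₀).mulVec (vort v x₀) = n ^ 2 * rate v e x₀ := by
  rw [hω, Matrix.mulVec_smul, smul_dotProduct, dotProduct_smul, smul_eq_mul, smul_eq_mul, rate]
  ring

/-- **The stretching term under the one-sided condition, with the energy.** -/
theorem stretch_energy (hv : ContDiff ℝ 2 v) (hp : Periodic3 v) (hdiv : ∀ x, divergence v x = 0)
    {G B : ℝ} (hG : 1 ≤ G) (hc : OneSidedTwist v x₀ G 0 B) :
    vort v x₀ ⬝ᵥ (grad v x₀).mulVec (vort v x₀)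
      ≤ (3 * B + CE * Real.sqrt (∫ x in Dom, sq3 (v x)) * G ^ (5 / 2 : ℝ))
        * (vort v x₀ ⬝ᵥ vort v x₀) := by
  rcases (nrm_nonneg (vort v x₀)).eq_or_lt with h0 | h0
  · have h1 : vort v x₀ = 0 := nrm_eq_zero h0.symm
    rw [h1]
    simp
  · obtain ⟨m, hD, hc⟩ := hc
    obtain ⟨h1, h2⟩ := unit_dir h0
    have h3 := rate_energy hv hp hdiv hG h0 h1 h2 hD hc
    rw [stretch_eq h2, ← nrm_sq, mul_comm]
    exact mul_le_mul_of_nonneg_right h3 (by positivity)

/-- **The stretching term under the one-sided condition, with the velocity.** -/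
theorem stretch_vel (hv : ContDiff ℝ 2 v) (hdiv : ∀ x, divergence v x = 0)
    {G θ B U Ω δ : ℝ} (hG : 0 < G) (hθ : 0 ≤ θ) (hc : OneSidedTwist v x₀ G θ B)
    (hU : ∀ y, nrm (y - x₀) < 1 / G → nrm (v y - v x₀) ≤ U)
    (hΩ : ∀ y, nrm (y - x₀) < 1 / G → nrm (vort v y) ≤ Ω) (hδ : 0 < δ) (hδ1 : δ ≤ 1) :
    vort v x₀ ⬝ᵥ (grad v x₀).mulVec (vort v x₀)
      ≤ (3 * B + CV * (U * G * (1 + θ * Real.log (1 / δ)) + θ * δ * Ω))
        * (vort v x₀ ⬝ᵥ vort v x₀) := by
  rcases (nrm_nonneg (vort v x₀)).eq_or_lt with h0 | h0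
  · have h1 : vort v x₀ = 0 := nrm_eq_zero h0.symm
    rw [h1]
    simp
  · obtain ⟨m, hD, hc⟩ := hc
    obtain ⟨h1, h2⟩ := unit_dir h0
    have h3 := rate_vel hv hdiv hG hθ h0 h1 h2 hD hc hU hΩ hδ hδ1
    rw [stretch_eq h2, ← nrm_sq, mul_comm]
    exact mul_le_mul_of_nonneg_right h3 (by positivity)

end Pool.Agent.K3h69.OS
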