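import Pool.Agent.K3h69.OS.Rad
import Pool.Agent.K3h69.OS.Stat3

/-!
# The stretching rate and the positive part of Constantin's integrand: static estimates
-/

open MeasureTheory Set Filter
open scoped ENNReal NNReal Topology

namespace Pool.Agent.K3h69.OS

open Pool.Agent.H708R2.EulerSign Pool.Agent.H708R2.EulerTypeI Pool.Agent.W786.Dir

/-- With `ξ` the direction of the vorticity `ω` of `v` at `x`: the integrand
`(y · ξ) det(y, ω(x + y), ξ) / |y|⁵` of Constantin's formula for the stretching rate at `x`, minus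
`θ G ω(x + y) · ξ / |y|²`. -/
noncomputable def excess (v : V → V) (x : V) (G θ : ℝ) (y : V) : ℝ :=
  (y ⬝ᵥ dirv v x) * (vort v (x + y) ⬝ᵥ cross (dirv v x) y) / nrm y ^ 5
    - θ * G * (vort v (x + y) ⬝ᵥ dirv v x) / nrm y ^ 2

/-- The integral over `|y| < 1 / G` of the positive part of `excess`. -/
noncomputable def PosPart (v : V → V) (x : V) (G θ : ℝ) : ℝ≥0∞ :=
  ∫⁻ y in {y : V | nrm y < 1 / G}, ENNReal.ofReal (excess v x G θ y)

variable {v : V → V} {x₀ : V}

lemma dirv_unit (h : 0 < nrm (vort v x₀)) : dirv v x₀ ⬝ᵥ dirv v x₀ = 1 := (unit_dir h).1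

lemma dirv_eq (h : 0 < nrm (vort v x₀)) : vort v x₀ = nrm (vort v x₀) • dirv v x₀ :=
  (unit_dir h).2

lemma cross_cont (e : V) : Continuous fun z : V => cross e z := by
  unfold cross
  refine continuous_pi fun i => ?_
  fin_cases i <;> simp <;> fun_prop

lemma excess_meas (hv : ContDiff ℝ 2 v) (G θ : ℝ) : Measurable (excess v x₀ G θ) := by
  unfold excess
  have h2 : Continuous fun y => vort v (x₀ + y) := (vort_cont hv).comp (by fun_prop)
  have h1 : Continuous fun y : V => (y ⬝ᵥ dirv v x₀) * (vort v (x₀ + y) ⬝ᵥ cross (dirv v x₀) y) := by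
    have h3 := cross_cont (dirv v x₀)
    simp only [dotProduct]
    refine Continuous.mul (by fun_prop) ?_
    exact continuous_finsetSum _ fun i _ =>
      ((continuous_apply i).comp h2).mul ((continuous_apply i).comp h3)
  have h4 : Continuous fun y : V => θ * G * (vort v (x₀ + y) ⬝ᵥ dirv v x₀) := by
    simp only [dotProduct]
    exact continuous_const.mul (continuous_finsetSum _ fun i _ =>
      ((continuous_apply i).comp h2).mul continuous_const)
  exact (h1.measurable.div (nrm_cont.pow 5).measurable).sub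
    (h4.measurable.div (nrm_cont.pow 2).measurable)

/-- The bound of the derivative of the averages. -/
lemma neg_dA' (hv : ContDiff ℝ 2 v) (hdiv : ∀ x, divergence v x = 0) {G θ : ℝ}
    {r : ℝ} (hr : 0 < r) :
    Ph (fun y => ENNReal.ofReal (excess v x₀ G θ y)) r ≠ ∞ ∧
    -Av' v x₀ (dirv v x₀) r ≤ (Ph (fun y => ENNReal.ofReal (excess v x₀ G θ y)) r).toReal
      + 6 * G * (θ * Jv v x₀ (dirv v x₀) r) := by
  set e := dirv v x₀ with he
  have h1 := rate_formula hv hdiv e x₀ r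
  have hw : Continuous fun z => vort v (x₀ + r • z) := (vort_cont hv).comp (by fun_prop)
  have hLc : Continuous fun z => (z ⬝ᵥ e) * (vort v (x₀ + r • z) ⬝ᵥ cross e z) := by
    have h3 := cross_cont e
    simp only [dotProduct]
    refine Continuous.mul (by fun_prop) ?_
    exact continuous_finsetSum _ fun i _ =>
      ((continuous_apply i).comp hw).mul ((continuous_apply i).comp h3)
  have hLi : Integrable fun z => P 2 z * ((z ⬝ᵥ e) * (vort v (x₀ + r • z) ⬝ᵥ cross e z)) :=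
    ((P_cont 2).mul hLc).integrable_of_hasCompactSupport (P_supp 1).mul_right
  have hJi := Jv_int (x₀ := x₀) (e := e) hv r
  have e1 : -Av' v x₀ e r
      = ∫ z, 6 / r * (P 2 z * ((z ⬝ᵥ e) * (vort v (x₀ + r • z) ⬝ᵥ cross e z))) := by
    rw [integral_const_mul]
    have e2 : (fun z => (z ⬝ᵥ e) * P 2 z * (vort v (x₀ + r • z) ⬝ᵥ cross z e))
        = fun z => -(P 2 z * ((z ⬝ᵥ e) * (vort v (x₀ + r • z) ⬝ᵥ cross e z))) := by
      funext z
      rw [cross_anti z e, dotProduct_neg]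
      ring
    rw [e2, integral_neg] at h1
    have h2 : r * Av' v x₀ e r
        = -(6 * ∫ z, P 2 z * ((z ⬝ᵥ e) * (vort v (x₀ + r • z) ⬝ᵥ cross e z))) := by
      unfold Av'
      linarith
    have h3 : r * -Av' v x₀ e r
        = r * (6 / r * ∫ z, P 2 z * ((z ⬝ᵥ e) * (vort v (x₀ + r • z) ⬝ᵥ cross e z))) := by
      rw [mul_neg, h2, neg_neg]
      field_simp
    exact mul_left_cancel₀ hr.ne' h3
  have e3 : 6 * G * (θ * Jv v x₀ e r)
      = ∫ z, 6 * G * θ * (K3 z * (vort v (x₀ + r • z) ⬝ᵥ e)) := by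
    rw [integral_const_mul]
    unfold Jv
    ring
  set f : V → ℝ := fun z => 6 / r * (P 2 z * ((z ⬝ᵥ e) * (vort v (x₀ + r • z) ⬝ᵥ cross e z)))
    - 6 * G * θ * (K3 z * (vort v (x₀ + r • z) ⬝ᵥ e)) with hf
  have hfi : Integrable f := (hLi.const_mul _).sub (hJi.const_mul _)
  have e4 : Ph (fun y => ENNReal.ofReal (excess v x₀ G θ y)) r = ∫⁻ z, ENNReal.ofReal (f z) := by
    unfold Ph
    refine lintegral_congr fun z => ?_
    have hP := P_nonneg 2 z
    have hn := nrm_nonneg z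
    rw [← ENNReal.ofReal_mul (by positivity)]
    congr 1
    simp only [hf, excess, ← he]
    have c1 : cross e (r • z) = r • cross e z := by
      have := cross_smul_smul 1 r e z
      simpa using this
    rw [c1, smul_dotProduct, dotProduct_smul, nrm_smul, abs_of_pos hr, smul_eq_mul, smul_eq_mul]
    rcases hn.eq_or_lt with h0 | h0
    · have hz : z = 0 := nrm_eq_zero h0.symm
      subst hz
      simp [K3, nrm]
    · unfold K3
      field_simp
  have hfin : ∫⁻ z, ENNReal.ofReal (f z) ≠ ∞ := hfi.lintegral_lt_top.ne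
  refine ⟨by rw [e4]; exact hfin, ?_⟩
  have h3 : ∫ z, f z ≤ (∫⁻ z, ENNReal.ofReal (f z)).toReal := by
    have h4 : ∫ z, f z ≤ ∫ z, max (f z) 0 :=
      integral_mono hfi hfi.pos_part fun z => le_max_left _ _
    refine h4.trans (le_of_eq ?_)
    rw [integral_eq_lintegral_of_nonneg_ae (f := fun z => max (f z) 0)
      (Eventually.of_forall fun z => le_max_right _ _) hfi.pos_part.aestronglyMeasurable]
    congr 1
    refine lintegral_congr fun z => ?_
    rcases le_or_gt (f z) 0 with h5 | h5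
    · rw [max_eq_right h5, ENNReal.ofReal_zero, ENNReal.ofReal_of_nonpos h5]
    · rw [max_eq_left h5.le]
  rw [e4, e1, e3]
  have h5 : ∫ z, f z = (∫ z, 6 / r * (P 2 z * ((z ⬝ᵥ e) * (vort v (x₀ + r • z) ⬝ᵥ cross e z))))
      - ∫ z, 6 * G * θ * (K3 z * (vort v (x₀ + r • z) ⬝ᵥ e)) :=
    integral_sub (hLi.const_mul _) (hJi.const_mul _)
  linarith

section

variable {G θ B : ℝ}

/-- The kernel contribution is integrable, with the sharp constant. -/
lemma Ph_tot (hv : ContDiff ℝ 2 v) (hB : 0 ≤ B)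
    (hN : PosPart v x₀ G θ ≤ ENNReal.ofReal (4 * Real.pi / 3 * B)) :
    IntegrableOn (fun r => (Ph (fun y => ENNReal.ofReal (excess v x₀ G θ y)) r).toReal)
      (Ioo 0 (1 / G)) ∧
    ∫ r in Ioo 0 (1 / G), (Ph (fun y => ENNReal.ofReal (excess v x₀ G θ y)) r).toReal
      ≤ (∫ z, P 3 z) * B := by
  have hpi := Real.pi_pos
  have hQ : Measurable fun y => ENNReal.ofReal (excess v x₀ G θ y) :=
    (excess_meas hv G θ).ennreal_ofReal
  have h1 := Ph_int hQ (1 / G)
  have h2 : ∫⁻ r in Ioo 0 (1 / G), Ph (fun y => ENNReal.ofReal (excess v x₀ G θ y)) r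
      ≤ ENNReal.ofReal ((∫ z, P 3 z) * B) := by
    refine h1.trans ?_
    calc ENNReal.ofReal (16 / 105) * ∫⁻ y in {y : V | nrm y < 1 / G},
          ENNReal.ofReal (excess v x₀ G θ y)
        ≤ ENNReal.ofReal (16 / 105) * ENNReal.ofReal (4 * Real.pi / 3 * B) := by
          gcongr
          exact hN
      _ = ENNReal.ofReal ((∫ z, P 3 z) * B) := by
          rw [← ENNReal.ofReal_mul (by norm_num), I3_eq]
          congr 1
          ring
  have h3 : ∫⁻ r in Ioo 0 (1 / G), Ph (fun y => ENNReal.ofReal (excess v x₀ G θ y)) r ≠ ∞ :=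
    (h2.trans_lt ENNReal.ofReal_lt_top).ne
  have hm := (Ph_meas hQ).aemeasurable (μ := volume.restrict (Ioo 0 (1 / G)))
  refine ⟨integrable_toReal_of_lintegral_ne_top hm h3, ?_⟩
  rw [integral_toReal hm (ae_lt_top' hm h3)]
  have c3 : 0 < ∫ z, P 3 z := P_int_pos 2
  exact ENNReal.toReal_le_of_le_ofReal (by positivity) h2

/-- Integration of the derivative of the averages over `[a, b] ⊆ [0, 1 / G]`. -/
lemma Av_step' (hv : ContDiff ℝ 2 v) (hdiv : ∀ x, divergence v x = 0) (hG : 0 < G) (hB : 0 ≤ B)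
    (hN : PosPart v x₀ G θ ≤ ENNReal.ofReal (4 * Real.pi / 3 * B))
    {a b : ℝ} (ha : 0 ≤ a) (hab : a ≤ b) (hb : b ≤ 1 / G) {J : ℝ → ℝ}
    (hJi : IntegrableOn J (Icc a b)) (hJ : ∀ r ∈ Ioo a b, θ * Jv v x₀ (dirv v x₀) r ≤ J r) :
    Av v x₀ (dirv v x₀) a ≤ Av v x₀ (dirv v x₀) b
      + (∫ r in Ioo a b, (Ph (fun y => ENNReal.ofReal (excess v x₀ G θ y)) r).toReal)
      + 6 * G * ∫ r in a..b, J r := by
  set e := dirv v x₀ with he
  set Φ : ℝ → ℝ := fun r => (Ph (fun y => ENNReal.ofReal (excess v x₀ G θ y)) r).toReal with hΦ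
  have hmi : IntegrableOn Φ (Icc a b) := by
    rw [integrableOn_Icc_iff_integrableOn_Ioo]
    exact (Ph_tot hv hB hN).1.mono_set (Ioo_subset_Ioo ha hb)
  have hφ : IntegrableOn (fun r => Φ r + 6 * G * J r) (Icc a b) := hmi.add (hJi.const_mul _)
  have h1 := intervalIntegral.sub_le_integral_of_hasDeriv_right_of_le (g := fun r => -Av v x₀ e r)
    (g' := fun r => -Av' v x₀ e r) hab
    (fun r _ => (Av_deriv hv r).neg.continuousAt.continuousWithinAt)
    (fun r _ => (Av_deriv hv r).neg.hasDerivWithinAt) hφ (fun r hr => by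
      have hr' : 0 < r := ha.trans_lt hr.1
      have h2 := (neg_dA' (x₀ := x₀) (G := G) (θ := θ) hv hdiv hr').2
      refine h2.trans ?_
      have h3 := hJ r hr
      have h5 : 6 * G * (θ * Jv v x₀ e r) ≤ 6 * G * J r := mul_le_mul_of_nonneg_left h3 (by positivity)
      simp only [hΦ]
      linarith)
  rw [intervalIntegral.integral_add, intervalIntegral.integral_const_mul] at h1
  · rw [intervalIntegral.integral_of_le hab, integral_Ioc_eq_integral_Ioo] at h1
    linarith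
  · exact (intervalIntegrable_iff_integrableOn_Icc_of_le hab).2 hmi
  · exact (intervalIntegrable_iff_integrableOn_Icc_of_le hab).2 (hJi.const_mul _)

end

/-- The average at the radius `1 / G` is bounded by the energy. -/
lemma Av_energy {e : V} (hv : ContDiff ℝ 2 v) (hp : Periodic3 v) (he : e ⬝ᵥ e = 1) {G : ℝ}
    (hG : 1 ≤ G) : Av v x₀ e (1 / G)
      ≤ 6 * Real.sqrt (∫ z, P 2 z) * (Real.sqrt (∫ x in Dom, sq3 (v x)) * G ^ (5 / 2 : ℝ)) := by
  have hG0 : 0 < G := by linarith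
  have c2 : 0 < ∫ z, P 2 z := P_int_pos 1
  set I2 := ∫ z, P 2 z with hI2
  set E := ∫ x in Dom, sq3 (v x) with hE
  have hE0 : 0 ≤ E := integral_nonneg fun _ => sq3_nonneg _
  have hfp : Periodic3 fun x => sq3 (v x) := by
    intro i x
    simp only
    rw [hp i x]
  have hfc : Continuous fun x => sq3 (v x) := ((sq3_contDiff (n := 1)).continuous).comp hv.continuous
  have h3 := local_energy hfc hfp (fun _ => sq3_nonneg _) x₀ (r := 1 / G) (by positivity)
    (by rw [div_le_one hG0]; exact hG)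
  have h4 : ((1 / G) ^ 3)⁻¹ = G ^ 3 := by
    rw [one_div, inv_pow, inv_inv]
  rw [h4] at h3
  have h5 : 1 / G * Av v x₀ e (1 / G) ≤ 6 * Real.sqrt I2 * (Real.sqrt E * Real.sqrt (G ^ 3)) := by
    rcases hE0.eq_or_lt with h0 | h0
    · rw [← hE, ← h0, mul_zero] at h3
      rw [← h0, Real.sqrt_zero]
      simp only [zero_mul, mul_zero]
      refine le_of_forall_pos_le_add fun ε hε => ?_
      have h6 := Av_local (x₀ := x₀) (e := e) hv he (by positivity : 0 < 1 / G) h3
        (l := ε / (3 * I2)) (by positivity)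
      rw [zero_div, add_zero] at h6
      refine h6.trans (le_of_eq ?_)
      rw [← hI2]
      field_simp
      ring
    · have hEG : 0 < G ^ 3 * E := by positivity
      have h6 := Av_local (x₀ := x₀) (e := e) hv he (by positivity : 0 < 1 / G) h3
        (l := Real.sqrt (G ^ 3 * E) / Real.sqrt I2) (by positivity)
      refine h6.trans (le_of_eq ?_)
      rw [← hI2]
      have s1 : Real.sqrt (G ^ 3 * E) = Real.sqrt (G ^ 3) * Real.sqrt E := Real.sqrt_mul (by positivity) _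
      have s2 : Real.sqrt I2 ^ 2 = I2 := Real.sq_sqrt c2.le
      have s3 : Real.sqrt (G ^ 3 * E) ^ 2 = G ^ 3 * E := Real.sq_sqrt hEG.le
      have p1 : 0 < Real.sqrt I2 := Real.sqrt_pos.2 c2
      have p2 : 0 < Real.sqrt (G ^ 3 * E) := Real.sqrt_pos.2 hEG
      rw [mul_comm (Real.sqrt E), ← s1]
      have s4 : Real.sqrt (G ^ 3 * E) / Real.sqrt I2 * I2 = Real.sqrt (G ^ 3 * E) * Real.sqrt I2 := by
        rw [div_mul_eq_mul_div, div_eq_iff p1.ne', mul_assoc, ← sq, s2]
      have s5 : G ^ 3 * E / (Real.sqrt (G ^ 3 * E) / Real.sqrt I2)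
          = Real.sqrt (G ^ 3 * E) * Real.sqrt I2 := by
        rw [div_div_eq_mul_div, div_eq_iff p2.ne']
        calc G ^ 3 * E * Real.sqrt I2 = Real.sqrt (G ^ 3 * E) ^ 2 * Real.sqrt I2 := by rw [s3]
          _ = _ := by ring
      rw [s4, s5]
      ring
  have h6 : Real.sqrt (G ^ 3) * G = G ^ (5 / 2 : ℝ) := by
    rw [Real.sqrt_eq_rpow, ← Real.rpow_natCast, ← Real.rpow_mul hG0.le]
    nth_rewrite 2 [← Real.rpow_one G]
    rw [← Real.rpow_add hG0]
    norm_num
  rw [← h6]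
  have h8 : Av v x₀ e (1 / G) = G * (1 / G * Av v x₀ e (1 / G)) := by field_simp
  rw [h8]
  calc G * (1 / G * Av v x₀ e (1 / G))
      ≤ G * (6 * Real.sqrt I2 * (Real.sqrt E * Real.sqrt (G ^ 3))) := by gcongr
    _ = _ := by ring

/-- The stretching rate, with the energy. -/
theorem rate_energy' (hv : ContDiff ℝ 2 v) (hp : Periodic3 v) (hdiv : ∀ x, divergence v x = 0)
    {G B : ℝ} (hG : 1 ≤ G) (hB : 0 ≤ B) (h0 : 0 < nrm (vort v x₀))
    (hN : PosPart v x₀ G 0 ≤ ENNReal.ofReal (4 * Real.pi / 3 * B)) :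
    rate v (dirv v x₀) x₀ ≤ B + CE * Real.sqrt (∫ x in Dom, sq3 (v x)) * G ^ (5 / 2 : ℝ) := by
  have hG0 : 0 < G := by linarith
  have c3 : 0 < ∫ z, P 3 z := P_int_pos 2
  have he := dirv_unit h0
  have h1 := Av_step' hv hdiv hG0 hB hN le_rfl (by positivity : (0 : ℝ) ≤ 1 / G) le_rfl
    (J := fun _ => 0) (by simp) (fun r _ => by simp)
  have h2 := (Ph_tot hv hB hN).2
  rw [Av_zero] at h1
  simp only [intervalIntegral.integral_zero, mul_zero, add_zero] at h1
  have h7 := Av_energy (x₀ := x₀) hv hp he hG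
  set I2 := ∫ z, P 2 z with hI2
  set I3 := ∫ z, P 3 z with hI3
  set E := ∫ x in Dom, sq3 (v x) with hE
  have h8 : I3 * rate v (dirv v x₀) x₀ ≤ I3 * (B + CE * Real.sqrt E * G ^ (5 / 2 : ℝ)) := by
    have e1 : I3 * (B + CE * Real.sqrt E * G ^ (5 / 2 : ℝ))
        = I3 * B + 6 * Real.sqrt I2 * (Real.sqrt E * G ^ (5 / 2 : ℝ)) := by
      unfold CE
      rw [← hI2, ← hI3]
      field_simp
    rw [e1]
    linarith
  exact le_of_mul_le_mul_left h8 c3

/-- The stretching rate, with the variation of the velocity. -/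
theorem rate_vel' (hv : ContDiff ℝ 2 v) (hdiv : ∀ x, divergence v x = 0)
    {G θ B : ℝ} (hG : 0 < G) (hθ : 0 ≤ θ) (hB : 0 ≤ B) (h00 : 0 < nrm (vort v x₀))
    (hN : PosPart v x₀ G θ ≤ ENNReal.ofReal (4 * Real.pi / 3 * B))
    {U Ω : ℝ} (hU : ∀ y, nrm (y - x₀) < 1 / G → nrm (v y - v x₀) ≤ U)
    (hΩ : ∀ y, nrm (y - x₀) < 1 / G → nrm (vort v y) ≤ Ω) {δ : ℝ} (hδ : 0 < δ) (hδ1 : δ ≤ 1) :
    rate v (dirv v x₀) x₀ ≤ B + CV * (U * G * (1 + θ * Real.log (1 / δ)) + θ * δ * Ω) := by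
  have c1 : 0 < ∫ z, P 1 z := P_int_pos 0
  have c2 : 0 < ∫ z, P 2 z := P_int_pos 1
  have c3 : 0 < ∫ z, P 3 z := P_int_pos 2
  have he := dirv_unit h00
  have h0 : nrm (x₀ - x₀) < 1 / G := by
    rw [sub_self]
    have : nrm (0 : V) = 0 := by simp [nrm]
    rw [this]
    positivity
  have hU0 : 0 ≤ U := (nrm_nonneg _).trans (hU _ h0)
  have hΩ0 : 0 ≤ Ω := (nrm_nonneg _).trans (hΩ _ h0)
  set ρ := 1 / G with hρ'
  have hρ : 0 < ρ := by positivity
  set r₀ := δ * ρ with hr₀'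
  have hr₀ : 0 < r₀ := by positivity
  have hr₀ρ : r₀ ≤ ρ := mul_le_of_le_one_left hρ.le hδ1
  set I1 := ∫ z, P 1 z with hI1
  set I2 := ∫ z, P 2 z with hI2
  set I3 := ∫ z, P 3 z with hI3
  have s1 := Av_step' (J := fun _ => θ * (Ω * I2)) hv hdiv hG hB hN le_rfl hr₀.le hr₀ρ
    (integrableOn_const (by simp)) (fun r hr =>
      mul_le_mul_of_nonneg_left (Jv_near he hr.1 (hr.2.le.trans hr₀ρ) hΩ) hθ)
  have hJ2i : IntegrableOn (fun r => θ * (42 * U * I1 / r)) (Icc r₀ ρ) := by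
    refine ContinuousOn.integrableOn_Icc ?_
    refine continuousOn_const.mul (continuousOn_const.div continuousOn_id fun r hr => ?_)
    exact (hr₀.trans_le hr.1).ne'
  have s2 := Av_step' (J := fun r => θ * (42 * U * I1 / r)) hv hdiv hG hB hN hr₀.le hr₀ρ le_rfl
    hJ2i (fun r hr =>
      mul_le_mul_of_nonneg_left (Jv_far hv he (hr₀.trans hr.1) hr.2.le hU0 hU) hθ)
  have e1 : ∫ r in (0 : ℝ)..r₀, θ * (Ω * I2) = θ * (Ω * I2) * r₀ := by
    rw [intervalIntegral.integral_const, smul_eq_mul, sub_zero, mul_comm]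
  have e2 : ∫ r in r₀..ρ, θ * (42 * U * I1 / r) = θ * (42 * U * I1) * Real.log (1 / δ) := by
    have e3 : (fun r : ℝ => θ * (42 * U * I1 / r)) = fun r => θ * (42 * U * I1) * r⁻¹ := by
      funext r
      ring
    rw [e3, intervalIntegral.integral_const_mul, integral_inv_of_pos hr₀ hρ]
    congr 2
    rw [hr₀']
    field_simp
  obtain ⟨hI, hB2⟩ := Ph_tot hv hB hN
  set Φ : ℝ → ℝ := fun r => (Ph (fun y => ENNReal.ofReal (excess v x₀ G θ y)) r).toReal with hΦ
  have hsum : (∫ r in Ioo 0 r₀, Φ r) + ∫ r in Ioo r₀ ρ, Φ r = ∫ r in Ioo 0 ρ, Φ r := by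
    have hI' : IntervalIntegrable Φ volume 0 ρ :=
      (intervalIntegrable_iff_integrableOn_Ioo_of_le hρ.le).2 hI
    rw [← integral_Ioc_eq_integral_Ioo, ← integral_Ioc_eq_integral_Ioo (x := r₀),
      ← integral_Ioc_eq_integral_Ioo (x := 0) (y := ρ),
      ← intervalIntegral.integral_of_le hr₀.le, ← intervalIntegral.integral_of_le hr₀ρ,
      ← intervalIntegral.integral_of_le hρ.le]
    refine intervalIntegral.integral_add_adjacent_intervals (hI'.mono_set ?_) (hI'.mono_set ?_)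
    · rw [uIcc_of_le hr₀.le, uIcc_of_le hρ.le]
      exact Icc_subset_Icc le_rfl hr₀ρ
    · rw [uIcc_of_le hr₀ρ, uIcc_of_le hρ.le]
      exact Icc_subset_Icc hr₀.le le_rfl
  have s3 := Av_vel (x₀ := x₀) (e := dirv v x₀) hv he hρ hU
  rw [e1] at s1
  rw [e2] at s2
  rw [Av_zero, ← hI3] at s1
  have hG1 : G * ρ = 1 := by rw [hρ']; field_simp
  have hUρ : U / ρ = U * G := by rw [hρ']; field_simp
  rw [hUρ, ← hI2] at s3
  have hlog0 : 0 ≤ Real.log (1 / δ) := Real.log_nonneg (by rw [le_div_iff₀ hδ]; linarith)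
  have h8 : I3 * rate v (dirv v x₀) x₀
      ≤ I3 * (B + CV * (U * G * (1 + θ * Real.log (1 / δ)) + θ * δ * Ω)) := by
    have e3 : I3 * (B + CV * (U * G * (1 + θ * Real.log (1 / δ)) + θ * δ * Ω))
        = I3 * B + (6 * I2 + 252 * I1) * (U * G * (1 + θ * Real.log (1 / δ)) + θ * δ * Ω) := by
      unfold CV
      rw [← hI1, ← hI2, ← hI3]
      field_simp
    rw [e3]
    have h11 : 6 * G * (θ * (Ω * I2) * r₀) = 6 * I2 * (θ * δ * Ω) := by
      rw [hr₀']
      calc 6 * G * (θ * (Ω * I2) * (δ * ρ)) = 6 * I2 * (θ * δ * Ω) * (G * ρ) := by ring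
        _ = _ := by rw [hG1, mul_one]
    have h12 : 6 * G * (θ * (42 * U * I1) * Real.log (1 / δ))
        = 252 * I1 * (U * G * (θ * Real.log (1 / δ))) := by ring
    rw [h11] at s1
    rw [h12] at s2
    have q1 : 0 ≤ I1 * (U * G) := by positivity
    have q2 : 0 ≤ I1 * (θ * δ * Ω) := by positivity
    have q3 : 0 ≤ I2 * (U * G * (θ * Real.log (1 / δ))) := by positivity
    nlinarith
  exact le_of_mul_le_mul_left h8 c3

end Pool.Agent.K3h69.OS
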