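import Pool.Agent.K3h69.OS.Tw1
import Pool.Agent.K3h69.OS.En

/-!
# The one-sided criterion: integration in time
-/

open MeasureTheory Set Filter
open scoped ENNReal NNReal Topology

namespace Pool.Agent.K3h69.OS

open Pool.Agent.H708R2.EulerSign Pool.Agent.H708R2.EulerTypeI Pool.Agent.W786.Sv
  Pool.Agent.W786.Dir Pool.Agent.W786.Max

variable {T : ℝ} {u : ℝ → V → V} {p : ℝ → V → ℝ}

/-- The one-sided condition at the point `x` for the field `v`: for some `G > 0` and
`0 ≤ θ ≤ 1` the integral of the positive part of the integrand is at most `(4π / 3) A`, and either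
`G |v(y) - v(x)| ≤ b` for `|y - x| < 1 / G`, or `θ = 0`, `G ≥ 1` and `G^(5/2) ≤ b`. -/
def OneSidedAt (v : V → V) (x : V) (A b : ℝ) : Prop :=
  ∃ G θ : ℝ, 0 < G ∧ 0 ≤ θ ∧ θ ≤ 1 ∧
    PosPart v x G θ ≤ ENNReal.ofReal (4 * Real.pi / 3 * A) ∧
    ((∀ y, nrm (y - x) < 1 / G → G * nrm (v y - v x) ≤ b) ∨
      (θ = 0 ∧ 1 ≤ G ∧ G ^ (5 / 2 : ℝ) ≤ b))

/-- The stretching rate at a maximum point under the one-sided condition. -/
lemma oneSided_rate (h : IsC2Solution T u p) {t : ℝ} (ht : t ∈ Ioo 0 T) {x : V}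
    (hx : IsMaxPt u t x) {A b : ℝ} (hA : 0 ≤ A) (hc : OneSidedAt (u t) x A b)
    (hm : 1 < nrm (vort (u t) x)) :
    Pq u t x ≤ (A + (CV + CE * Real.sqrt (∫ x in Dom, sq3 (u 0 x))) * (1 + |b|)
      * (1 + Real.log (nrm (vort (u t) x)))) * Wq u t x := by
  obtain ⟨G, θ, hG, hθ, hθ1, hN, hcase⟩ := hc
  set E := Real.sqrt (∫ x in Dom, sq3 (u 0 x)) with hE
  have hE0 : 0 ≤ E := Real.sqrt_nonneg _
  have hCV := CV_pos
  have hCE := CE_pos
  set m := nrm (vort (u t) x) with hmdef
  have hm0 : 0 < m := by linarith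
  have hlog : 0 < Real.log m := Real.log_pos hm
  have htI : t ∈ Ico 0 T := ⟨ht.1.le, ht.2⟩
  have hv := slice_two h ht
  have hdiv := fun x => h.sol.div_free t htI x
  have hb0 := abs_nonneg b
  have hbl := le_abs_self b
  have hW : Wq u t x = m ^ 2 := Wq_eq t x
  have hP : Pq u t x = m ^ 2 * rate (u t) (dirv (u t) x) x := stretch_eq (dirv_eq hm0)
  rw [hP, hW, mul_comm]
  refine mul_le_mul_of_nonneg_right ?_ (by positivity)
  rcases hcase with hU | ⟨h0, hG1, hGb⟩
  · have h1 := rate_vel' (x₀ := x) hv hdiv hG hθ hA hm0 hN (U := b / G) (Ω := m)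
      (fun y hy => by
        rw [le_div_iff₀ hG, mul_comm]
        exact hU y hy) (fun y _ => hx y) (δ := 1 / m) (by positivity)
      (by rw [div_le_one hm0]; exact hm.le)
    have e1 : Real.log (1 / (1 / m)) = Real.log m := by rw [one_div_one_div]
    have e2 : θ * (1 / m) * m = θ := by field_simp
    have e3 : b / G * G = b := by field_simp
    rw [e1, e2, e3] at h1
    refine h1.trans ?_
    have h5 : b * (1 + θ * Real.log m) + θ ≤ (1 + |b|) * (1 + Real.log m) := by
      have hθl : θ * Real.log m ≤ Real.log m := mul_le_of_le_one_left hlog.le hθ1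
      have hθl0 : 0 ≤ θ * Real.log m := mul_nonneg hθ hlog.le
      have h6 : b * (1 + θ * Real.log m) ≤ |b| * (1 + Real.log m) :=
        calc b * (1 + θ * Real.log m) ≤ |b| * (1 + θ * Real.log m) :=
              mul_le_mul_of_nonneg_right hbl (by linarith)
          _ ≤ |b| * (1 + Real.log m) := by gcongr
      nlinarith
    have h6 : CV * (b * (1 + θ * Real.log m) + θ) ≤ CV * ((1 + |b|) * (1 + Real.log m)) := by
      gcongr
    have h7 : 0 ≤ CE * E * ((1 + |b|) * (1 + Real.log m)) := by positivity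
    calc A + CV * (b * (1 + θ * Real.log m) + θ)
        ≤ A + (CV * ((1 + |b|) * (1 + Real.log m)) + CE * E * ((1 + |b|) * (1 + Real.log m))) := by
          linarith
      _ = _ := by ring
  · rw [h0] at hN
    have h1 := rate_energy' (x₀ := x) hv (h.sol.periodic_u t htI) hdiv hG1 hA hm0 hN
    rw [energy_const h.sol htI, ← hE] at h1
    refine h1.trans ?_
    have h5 : CE * E * G ^ (5 / 2 : ℝ) ≤ CE * E * ((1 + |b|) * (1 + Real.log m)) := by
      refine mul_le_mul_of_nonneg_left ?_ (by positivity)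
      nlinarith
    have h7 : 0 ≤ CV * ((1 + |b|) * (1 + Real.log m)) := by positivity
    calc A + CE * E * G ^ (5 / 2 : ℝ)
        ≤ A + (CV * ((1 + |b|) * (1 + Real.log m)) + CE * E * ((1 + |b|) * (1 + Real.log m))) := by
          linarith
      _ = _ := by ring

/-- Comparison with a multiple of `(T - t)^(-κ)`. -/
lemma kappa_comp (h : IsC2Solution T u p) {κ K a b : ℝ} (hκ : 0 ≤ κ) (hK : 0 ≤ K) (ha : 0 ≤ a)
    (hab : a ≤ b) (hb : b < T) {f : ℝ → ℝ} (hf0 : ∀ t, 0 ≤ f t) (hfi : IntegrableOn f (Icc a b))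
    (h0 : ∀ y, nrm (vort (u a) y) ≤ K)
    (hyp : ∀ᵐ t, t ∈ Ioo a b → ∃ x, IsMaxPt u t x ∧
      (K < nrm (vort (u t) x) → Pq u t x ≤ (κ / (T - t) + f t) * Wq u t x)) (x : V) :
    nrm (vort (u b) x) ≤ K * ((T - a) / (T - b)) ^ κ * Real.exp (∫ s in a..b, f s) := by
  have hii : ∀ s ∈ Icc a b, IntervalIntegrable f volume a s := fun s hs =>
    (intervalIntegrable_iff_integrableOn_Icc_of_le hs.1).2
      (hfi.mono_set (Icc_subset_Icc_right hs.2))
  set H : ℝ → ℝ := fun t => ∫ s in a..t, f s with hH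
  have hTpos : ∀ t ∈ Icc a b, 0 < T - t := fun t ht => sub_pos.2 (ht.2.trans_lt hb)
  have ha0 : 0 < T - a := hTpos a ⟨le_rfl, hab⟩
  refine comp_max h ha hab hb (ρ := fun t => κ / (T - t) + f t)
    (G := fun t => K * ((T - a) / (T - t)) ^ κ * Real.exp (H t)) ?_ ?_ ?_ ?_ ?_ ?_ x
  · have h1 : ContinuousOn H (Icc a b) := by
      have := intervalIntegral.continuousOn_primitive_interval (f := f) (a := a) (b := b)
        (by rwa [uIcc_of_le hab])
      rwa [uIcc_of_le hab] at this
    have h2 : ContinuousOn (fun t => ((T - a) / (T - t)) ^ κ) (Icc a b) := by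
      refine ContinuousOn.rpow_const ?_ fun t _ => Or.inr hκ
      exact continuousOn_const.div (continuousOn_const.sub continuousOn_id)
        fun t ht => (hTpos t ht).ne'
    exact (continuousOn_const.mul h2).mul (Real.continuous_exp.comp_continuousOn h1)
  · exact ((intervalIntegrable_iff_integrableOn_Icc_of_le hab).1
      (int_kappa (κ := κ) hab hb).1).add hfi
  · intro t ht
    have h1 := hTpos t ht
    have h2 := hf0 t
    positivity
  · intro s hs
    have hs0 := hTpos s hs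
    have hb0 := hTpos b ⟨hab, le_rfl⟩
    have hfs : IntervalIntegrable f volume s b :=
      (hii s hs).symm.trans (hii b ⟨hab, le_rfl⟩)
    have h1 : H s + ∫ r in s..b, f r = H b :=
      intervalIntegral.integral_add_adjacent_intervals (hii s hs) hfs
    obtain ⟨h2, h3⟩ := int_kappa (κ := κ) hs.2 hb
    have h4 : ∫ r in s..b, (κ / (T - r) + f r) = κ * (Real.log (T - s) - Real.log (T - b))
        + ∫ r in s..b, f r := by
      rw [intervalIntegral.integral_add h2 hfs, h3]
    rw [h4, Real.exp_add]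
    have h5 : Real.exp (κ * (Real.log (T - s) - Real.log (T - b))) = ((T - s) / (T - b)) ^ κ := by
      rw [Real.rpow_def_of_pos (by positivity), Real.log_div hs0.ne' hb0.ne', mul_comm]
    rw [h5]
    have h6 : ((T - a) / (T - s)) ^ κ * ((T - s) / (T - b)) ^ κ = ((T - a) / (T - b)) ^ κ := by
      rw [← Real.mul_rpow (by positivity) (by positivity)]
      congr 1
      field_simp
    refine le_of_eq ?_
    calc K * ((T - a) / (T - s)) ^ κ * Real.exp (H s)
          * (((T - s) / (T - b)) ^ κ * Real.exp (∫ r in s..b, f r))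
        = K * (((T - a) / (T - s)) ^ κ * ((T - s) / (T - b)) ^ κ)
          * (Real.exp (H s) * Real.exp (∫ r in s..b, f r)) := by ring
      _ = K * ((T - a) / (T - b)) ^ κ * Real.exp (H b) := by rw [h6, ← Real.exp_add, h1]
  · intro y
    simp only [hH, intervalIntegral.integral_same, Real.exp_zero, mul_one]
    rw [div_self ha0.ne', Real.one_rpow, mul_one]
    exact h0 y
  · filter_upwards [hyp] with t ht htI
    obtain ⟨y, hy, hy2⟩ := ht htI
    refine ⟨y, hy, fun hlt => hy2 (lt_of_le_of_lt ?_ hlt)⟩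
    have h0 := hTpos t ⟨htI.1.le, htI.2.le⟩
    have h1 : 1 ≤ ((T - a) / (T - t)) ^ κ := by
      refine Real.one_le_rpow ?_ hκ
      rw [le_div_iff₀ h0]
      linarith [htI.1]
    have h2 : 0 ≤ H t := intervalIntegral.integral_nonneg htI.1.le fun s _ => hf0 s
    have h3 : 1 ≤ Real.exp (H t) := Real.one_le_exp h2
    calc K ≤ K * ((T - a) / (T - t)) ^ κ := le_mul_of_one_le_right hK h1
      _ ≤ K * ((T - a) / (T - t)) ^ κ * Real.exp (H t) :=
        le_mul_of_one_le_right (by positivity) h3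

/-- The tail of an integral is small. -/
lemma small_tail {f : ℝ → ℝ} (hT : 0 < T) (hfi : IntegrableOn f (Ioo 0 T)) (hf0 : ∀ t, 0 ≤ f t)
    {η : ℝ} (hη : 0 < η) : ∃ a ∈ Ioo 0 T, ∀ b ∈ Ico a T, ∫ s in a..b, f s ≤ η := by
  have hfI : IntegrableOn f (Icc 0 T) := by
    rwa [integrableOn_Icc_iff_integrableOn_Ioo]
  have hc : ContinuousOn (fun t => ∫ s in (0 : ℝ)..t, f s) (Icc 0 T) := by
    have := intervalIntegral.continuousOn_primitive_interval (f := f) (a := 0) (b := T)
      (by rwa [uIcc_of_le hT.le])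
    rwa [uIcc_of_le hT.le] at this
  have h1 := hc T ⟨hT.le, le_rfl⟩
  have h2 : ∀ᶠ t in 𝓝[Icc 0 T] T, (∫ s in (0 : ℝ)..T, f s) - η < ∫ s in (0 : ℝ)..t, f s :=
    h1.eventually (lt_mem_nhds (by linarith))
  have h3 : ∀ᶠ t in 𝓝[<] T, (∫ s in (0 : ℝ)..T, f s) - η < ∫ s in (0 : ℝ)..t, f s := by
    have h4 : 𝓝[<] T ≤ 𝓝[Icc 0 T] T := by
      rw [← nhdsWithin_Ioo_eq_nhdsLT hT]
      exact nhdsWithin_mono _ Ioo_subset_Icc_self
    exact h4 h2
  have h5 : ∀ᶠ t in 𝓝[<] T, t ∈ Ioo 0 T := Ioo_mem_nhdsLT hT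
  obtain ⟨a, ha1, ha2⟩ := (h3.and h5).exists
  refine ⟨a, ha2, fun b hb => ?_⟩
  have hii : ∀ x ∈ Icc 0 T, ∀ y ∈ Icc 0 T, IntervalIntegrable f volume x y := by
    intro x hx y hy
    have hI : IntervalIntegrable f volume 0 T :=
      (intervalIntegrable_iff_integrableOn_Icc_of_le hT.le).2 hfI
    exact hI.mono_set (by rw [uIcc_of_le hT.le]; exact uIcc_subset_Icc hx hy)
  have m0 : (0 : ℝ) ∈ Icc 0 T := ⟨le_rfl, hT.le⟩
  have ma : a ∈ Icc 0 T := ⟨ha2.1.le, ha2.2.le⟩
  have mb : b ∈ Icc 0 T := ⟨ha2.1.le.trans hb.1, hb.2.le⟩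
  have mT : T ∈ Icc 0 T := ⟨hT.le, le_rfl⟩
  have e1 := intervalIntegral.integral_add_adjacent_intervals (hii 0 m0 a ma) (hii a ma b mb)
  have e2 := intervalIntegral.integral_add_adjacent_intervals (hii 0 m0 b mb) (hii b mb T mT)
  have e3 : 0 ≤ ∫ s in b..T, f s := intervalIntegral.integral_nonneg hb.2.le fun s _ => hf0 s
  linarith

/-- **The one-sided criterion: the bound of the vorticity.** -/
theorem oneSided_bound (h : IsC2Solution T u p) {κ : ℝ} (hκ : 0 ≤ κ) {β : ℝ → ℝ} {Λ : ℝ}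
    (hβi : IntegrableOn β (Ioo 0 T))
    (hyp : ∀ᵐ t, t ∈ Ioo 0 T → ∃ x, IsMaxPt u t x ∧
      (Λ < nrm (vort (u t) x) → OneSidedAt (u t) x (κ / (T - t) + β t) (β t)))
    {κ' : ℝ} (hκ' : κ < κ') :
    ∃ C : ℝ, ∀ t ∈ Ioo 0 T, ∀ x, nrm (vort (u t) x) ≤ C * (T - t) ^ (-κ') := by
  rcases le_or_gt T 0 with hT | hT
  · exact ⟨0, fun t ht => absurd (ht.1.trans ht.2) (not_lt.2 hT)⟩
  have hκ'0 : 0 < κ' := hκ.trans_lt hκ'
  have hCV := CV_pos
  have hCE := CE_pos
  set c₀ : ℝ := CV + CE * Real.sqrt (∫ x in Dom, sq3 (u 0 x)) with hc₀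
  have hc₀0 : 0 ≤ c₀ := by positivity
  set f : ℝ → ℝ := fun t => |β t| + c₀ * (1 + |β t|) with hf
  have hf0 : ∀ t, 0 ≤ f t := fun t => by positivity
  have hfi : IntegrableOn f (Ioo 0 T) := by
    have h2 : IntegrableOn (fun _ : ℝ => (1 : ℝ)) (Ioo 0 T) := integrableOn_const (by simp)
    exact hβi.abs.add ((h2.add hβi.abs).const_mul c₀)
  -- the choice of the small parameter and of the initial time
  set η : ℝ := (κ' - κ) / (2 * κ') with hη
  have hη0 : 0 < η := div_pos (by linarith) (by linarith)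
  have hη1 : 1 - η = (κ' + κ) / (2 * κ') := by
    rw [hη]
    field_simp
    ring
  have hη2 : 0 < 1 - η := by rw [hη1]; positivity
  obtain ⟨a, ha, htail⟩ := small_tail hT hfi hf0 hη0
  obtain ⟨W, hW0, hW⟩ := vort_bound h.sol (b := a) ha.2
  set K := max 1 (max Λ W) with hK
  have hK1 : 1 ≤ K := le_max_left _ _
  have hK0 : 0 < K := by linarith
  have hKΛ : Λ ≤ K := (le_max_left _ _).trans (le_max_right _ _)
  have hKW : W ≤ K := (le_max_right _ _).trans (le_max_right _ _)
  have hTa : 0 < T - a := sub_pos.2 ha.2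
  -- the bound on `[a, T)`
  have hmain : ∀ b ∈ Ico a T, ∀ x, nrm (vort (u b) x)
      ≤ Real.exp ((Real.log K + η) / (1 - η)) * ((T - a) / (T - b)) ^ κ' := by
    intro b hb x
    have hTb : 0 < T - b := sub_pos.2 hb.2
    obtain ⟨W', hW'0, hW'⟩ := vort_bound h.sol (b := b) hb.2
    set S : Set ℝ := insert K {r | ∃ c ∈ Icc a b, ∃ y, r = nrm (vort (u c) y)} with hS
    have hSb : BddAbove S := by
      refine ⟨max K W', ?_⟩
      rintro r (rfl | ⟨c, hc, y, rfl⟩)
      · exact le_max_left _ _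
      · exact ((hW' c ⟨ha.1.le.trans hc.1, hc.2⟩ y).1).trans (le_max_right _ _)
    set M := sSup S with hM
    have hKM : K ≤ M := le_csSup hSb (mem_insert _ _)
    have hM1 : 1 ≤ M := hK1.trans hKM
    have hM0 : 0 < M := by linarith
    have hlogM : 0 ≤ Real.log M := Real.log_nonneg hM1
    have hcM : ∀ c ∈ Icc a b, ∀ y, nrm (vort (u c) y) ≤ M := fun c hc y =>
      le_csSup hSb (mem_insert_of_mem _ ⟨c, hc, y, rfl⟩)
    set q : ℝ := (T - a) / (T - b) with hq
    have hq1 : 1 ≤ q := by rw [hq, le_div_iff₀ hTb]; linarith [hb.1]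
    have hlogq : 0 ≤ Real.log q := Real.log_nonneg hq1
    have hq0 : 0 < q := by linarith
    have hbd : ∀ r ∈ S, r ≤ K * q ^ κ * Real.exp ((1 + Real.log M) * η) := by
      have hone : 1 ≤ q ^ κ := Real.one_le_rpow hq1 hκ
      have hexp : 1 ≤ Real.exp ((1 + Real.log M) * η) := Real.one_le_exp (by positivity)
      rintro r (rfl | ⟨c, hc, y, rfl⟩)
      · calc K ≤ K * q ^ κ := le_mul_of_one_le_right hK0.le hone
          _ ≤ K * q ^ κ * Real.exp ((1 + Real.log M) * η) :=
            le_mul_of_one_le_right (by positivity) hexp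
      · have hcT : c < T := hc.2.trans_lt hb.2
        have hTc : 0 < T - c := sub_pos.2 hcT
        have hfc : IntegrableOn f (Icc a c) := by
          rw [integrableOn_Icc_iff_integrableOn_Ioo]
          exact hfi.mono_set (Ioo_subset_Ioo ha.1.le hcT.le)
        have h1 := kappa_comp h hκ hK0.le ha.1.le hc.1 hcT
          (f := fun t => f t * (1 + Real.log M)) (fun t => mul_nonneg (hf0 t) (by linarith))
          (hfc.mul_const _)
          (fun y => ((hW a ⟨ha.1.le, le_rfl⟩ y).1).trans hKW) (by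
            filter_upwards [hyp] with t ht htI
            have htT : t ∈ Ioo 0 T := ⟨ha.1.trans htI.1, htI.2.trans hcT⟩
            obtain ⟨z, hz, hz2⟩ := ht htT
            refine ⟨z, hz, fun hlt => ?_⟩
            have hTt : 0 < T - t := sub_pos.2 htT.2
            obtain ⟨G, θ, hG, hθ, hθ1, hN, hcase⟩ := hz2 (hKΛ.trans_lt hlt)
            have hA : 0 ≤ κ / (T - t) + |β t| := by positivity
            have hN' : PosPart (u t) z G θ
                ≤ ENNReal.ofReal (4 * Real.pi / 3 * (κ / (T - t) + |β t|)) := by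
              refine hN.trans (ENNReal.ofReal_le_ofReal ?_)
              have := le_abs_self (β t)
              have := Real.pi_pos
              gcongr
            have h2 := oneSided_rate h htT hz hA ⟨G, θ, hG, hθ, hθ1, hN', hcase⟩
              (hK1.trans_lt hlt)
            refine h2.trans (mul_le_mul_of_nonneg_right ?_ (Wq_nonneg t z))
            have h3 : nrm (vort (u t) z) ≤ M := hcM t ⟨htI.1.le, htI.2.le.trans hc.2⟩ z
            have h4 : Real.log (nrm (vort (u t) z)) ≤ Real.log M :=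
              Real.log_le_log (by linarith) h3
            have h5 : |β t| ≤ |β t| * (1 + Real.log M) :=
              le_mul_of_one_le_right (abs_nonneg _) (by linarith)
            have h6 : c₀ * (1 + |β t|) * (1 + Real.log (nrm (vort (u t) z)))
                ≤ c₀ * (1 + |β t|) * (1 + Real.log M) := by gcongr
            simp only [hf]
            calc κ / (T - t) + |β t| + c₀ * (1 + |β t|) * (1 + Real.log (nrm (vort (u t) z)))
                ≤ κ / (T - t) + |β t| * (1 + Real.log M)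
                  + c₀ * (1 + |β t|) * (1 + Real.log M) := by linarith
              _ = κ / (T - t) + (|β t| + c₀ * (1 + |β t|)) * (1 + Real.log M) := by ring) y
        refine h1.trans ?_
        have h2 : (T - a) / (T - c) ≤ q := by
          rw [hq]
          have := hc.2
          gcongr
        have h3 : ((T - a) / (T - c)) ^ κ ≤ q ^ κ := Real.rpow_le_rpow (by positivity) h2 hκ
        have h4 : ∫ s in a..c, f s * (1 + Real.log M) ≤ (1 + Real.log M) * η := by
          rw [intervalIntegral.integral_mul_const, mul_comm]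
          have := htail c ⟨hc.1, hcT⟩
          gcongr
        have h5 : Real.exp (∫ s in a..c, f s * (1 + Real.log M))
            ≤ Real.exp ((1 + Real.log M) * η) := Real.exp_le_exp.2 h4
        gcongr
    have hMle : M ≤ K * q ^ κ * Real.exp ((1 + Real.log M) * η) :=
      csSup_le ⟨K, mem_insert _ _⟩ hbd
    have hlog := Real.log_le_log hM0 hMle
    rw [Real.log_mul (by positivity) (Real.exp_pos _).ne', Real.log_exp,
      Real.log_mul hK0.ne' (by positivity), Real.log_rpow hq0] at hlog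
    have hlog2 : Real.log M * (1 - η) ≤ (Real.log K + η) + κ * Real.log q := by linarith
    have hlog3 : Real.log M ≤ (Real.log K + η) / (1 - η) + κ / (1 - η) * Real.log q := by
      have e1 : (Real.log K + η) / (1 - η) + κ / (1 - η) * Real.log q
          = ((Real.log K + η) + κ * Real.log q) / (1 - η) := by ring
      rw [e1, le_div_iff₀ hη2]
      exact hlog2
    have hκη : κ / (1 - η) ≤ κ' := by
      rw [div_le_iff₀ hη2, hη1]
      have : κ' * ((κ' + κ) / (2 * κ')) = (κ' + κ) / 2 := by field_simp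
      rw [this]
      linarith
    have hlog4 : Real.log M ≤ (Real.log K + η) / (1 - η) + κ' * Real.log q := by
      have := mul_le_mul_of_nonneg_right hκη hlogq
      linarith
    refine (hcM b ⟨hb.1, le_rfl⟩ x).trans ?_
    rw [← Real.exp_log hM0]
    refine (Real.exp_le_exp.2 hlog4).trans (le_of_eq ?_)
    rw [Real.exp_add, Real.rpow_def_of_pos hq0, mul_comm κ']
  -- conclusion
  set C₁ := Real.exp ((Real.log K + η) / (1 - η)) * (T - a) ^ κ' with hC₁
  refine ⟨C₁ + W * T ^ κ', fun t ht x => ?_⟩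
  have hTt : 0 < T - t := sub_pos.2 ht.2
  have hp1 : 0 < (T - t) ^ (-κ') := Real.rpow_pos_of_pos hTt _
  rcases le_or_gt a t with hat | hat
  · refine (hmain t ⟨hat, ht.2⟩ x).trans ?_
    have e1 : ((T - a) / (T - t)) ^ κ' = (T - a) ^ κ' * (T - t) ^ (-κ') := by
      rw [Real.div_rpow hTa.le hTt.le, Real.rpow_neg hTt.le]
      rfl
    rw [e1]
    have h1 : 0 ≤ W * T ^ κ' * (T - t) ^ (-κ') := by positivity
    calc Real.exp ((Real.log K + η) / (1 - η)) * ((T - a) ^ κ' * (T - t) ^ (-κ'))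
        = C₁ * (T - t) ^ (-κ') := by rw [hC₁]; ring
      _ ≤ (C₁ + W * T ^ κ') * (T - t) ^ (-κ') := by linarith
  · refine ((hW t ⟨ht.1.le, hat.le⟩ x).1).trans ?_
    have h1 : 1 ≤ T ^ κ' * (T - t) ^ (-κ') := by
      rw [Real.rpow_neg hTt.le, ← div_eq_mul_inv, ← Real.div_rpow hT.le hTt.le]
      refine Real.one_le_rpow ?_ hκ'0.le
      rw [le_div_iff₀ hTt]
      linarith [ht.1]
    have h2 : W ≤ W * (T ^ κ' * (T - t) ^ (-κ')) := le_mul_of_one_le_right hW0 h1
    have h3 : 0 ≤ C₁ * (T - t) ^ (-κ') := by positivity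
    calc W ≤ W * (T ^ κ' * (T - t) ^ (-κ')) := h2
      _ ≤ (C₁ + W * T ^ κ') * (T - t) ^ (-κ') := by linarith

/-- A bound `C (T - t)^(-κ')` with `κ' < 1` makes the Beale-Kato-Majda integral finite. -/
lemma bkm_of_rpow {κ' C : ℝ} (hκ' : κ' < 1)
    (hle : ∀ t ∈ Ioo 0 T, ∀ x, nrm (vort (u t) x) ≤ C * (T - t) ^ (-κ')) : BKMFinite T u := by
  unfold BKMFinite
  rcases le_or_gt T 0 with hT | hT
  · rw [Ioo_eq_empty (not_lt.2 hT)]
    simp
  have h1 : ∫⁻ t in Ioo 0 T, ⨆ x, ENNReal.ofReal (nrm (vort (u t) x))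
      ≤ ∫⁻ t in Ioo 0 T, ENNReal.ofReal (C * (T - t) ^ (-κ')) := by
    refine setLIntegral_mono' measurableSet_Ioo fun t ht => ?_
    exact iSup_le fun x => ENNReal.ofReal_le_ofReal (hle t ht x)
  refine h1.trans_lt ?_
  have h2 : IntervalIntegrable (fun x : ℝ => x ^ (-κ')) volume T 0 :=
    intervalIntegral.intervalIntegrable_rpow' (by linarith)
  have h3 : IntervalIntegrable (fun x : ℝ => (T - x) ^ (-κ')) volume 0 T := by
    have := h2.comp_sub_left T
    rwa [sub_self, sub_zero] at this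
  have h4 : IntegrableOn (fun t => C * (T - t) ^ (-κ')) (Ioo 0 T) := by
    have h5 := (intervalIntegrable_iff_integrableOn_Ioo_of_le hT.le).1 h3
    exact h5.const_mul _
  exact h4.lintegral_lt_top

end Pool.Agent.K3h69.OS
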